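import Mathlib

/-!
# Diagram groups over semigroup presentations

Diagrams are encoded by derivations: a diagram with top path labelled `w` is obtained by applying
oriented relations one after another, `(m, c)` meaning that the oriented relation (the label of a
cell) `c` is applied to the subword which starts after the first `m` letters.  Two derivations
give isotopic diagrams iff they differ by interchanges of consecutive independent applications.
-/

set_option autoImplicit false

namespace Pool.Agent.Work.MP_5cc51b_al

/-- A semigroup presentation `⟨A | l i = r i (i : ι)⟩`; both sides of every relation are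
nonempty words. -/
structure SgPres (A ι : Type*) where
  /-- left-hand sides of the relations -/
  l : ι → List A
  /-- right-hand sides of the relations -/
  r : ι → List A
  l_ne : ∀ i, l i ≠ []
  r_ne : ∀ i, r i ≠ []

namespace SgPres

variable {A ι : Type*}

/-- Top label of the cell `c`: the relation number `c.1`, read from left to right if
`c.2 = true` and from right to left if `c.2 = false`. -/
def top (P : SgPres A ι) (c : ι × Bool) : List A := if c.2 then P.l c.1 else P.r c.1

/-- Bottom label of the cell `c`. -/
def bot (P : SgPres A ι) (c : ι × Bool) : List A := if c.2 then P.r c.1 else P.l c.1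

/-- `P.Der w p w'`: the list `p` of cells is a derivation (a diagram cut into atomic diagrams)
from the word `w` to the word `w'`; the entry `(m, c)` of `p` replaces the subword `top c` which
starts after the first `m` letters by `bot c`. -/
inductive Der (P : SgPres A ι) : List A → List (ℕ × (ι × Bool)) → List A → Prop
  | nil (w : List A) : Der P w [] w
  | cons (u v : List A) (c : ι × Bool) (p : List (ℕ × (ι × Bool))) (w' : List A)
      (h : Der P (u ++ P.bot c ++ v) p w') : Der P (u ++ P.top c ++ v) ((u.length, c) :: p) w'

/-- One interchange of two consecutive independent cells: first `c` after `m` letters, then `d`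
to the right of the bottom path of `c`, is replaced by first `d`, then `c`. -/
inductive Swap (P : SgPres A ι) :
    List (ℕ × (ι × Bool)) → List (ℕ × (ι × Bool)) → Prop
  | mk (p q : List (ℕ × (ι × Bool))) (m n : ℕ) (c d : ι × Bool)
      (h : m + (P.bot c).length ≤ n) :
      Swap P (p ++ (m, c) :: (n, d) :: q)
        (p ++ (n - (P.bot c).length + (P.top c).length, d) :: (m, c) :: q)

/-- Cancellation of a dipole: a cell directly followed by the inverse cell at the same place. -/
inductive Dipole : List (ℕ × (ι × Bool)) → List (ℕ × (ι × Bool)) → Prop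
  | mk (p q : List (ℕ × (ι × Bool))) (m : ℕ) (c : ι × Bool) :
      Dipole (p ++ (m, c) :: (m, (c.1, !c.2)) :: q) (p ++ q)

/-- Isotopy of diagrams: the equivalence relation generated by interchanges. -/
def Isotopic (P : SgPres A ι) :
    List (ℕ × (ι × Bool)) → List (ℕ × (ι × Bool)) → Prop :=
  Relation.EqvGen P.Swap

/-- A diagram is reduced if it has no dipoles. -/
def IsReduced (P : SgPres A ι) (p : List (ℕ × (ι × Bool))) : Prop :=
  ∀ q r, P.Isotopic p q → ¬ Dipole q r

/-- The diagram group `D(P, w)` (as a set): `(w, w)`-diagrams modulo isotopy and insertion and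
cancellation of dipoles. -/
def DiagramGroup (P : SgPres A ι) (w : List A) : Type _ :=
  Quot (fun p q : {p : List (ℕ × (ι × Bool)) // P.Der w p w} =>
    P.Swap p.1 q.1 ∨ Dipole p.1 q.1)

/-- inverse cell -/
def bar (s : ℕ × (ι × Bool)) : ℕ × (ι × Bool) := (s.1, (s.2.1, !s.2.2))

/-- mirror image of a derivation -/
def mirror (p : List (ℕ × (ι × Bool))) : List (ℕ × (ι × Bool)) := (p.map bar).reverse

@[simp] theorem bar_bar (s : ℕ × (ι × Bool)) : bar (bar s) = s := by
  simp [bar]

theorem top_bar (P : SgPres A ι) (c : ι × Bool) : P.top (c.1, !c.2) = P.bot c := by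
  rcases c with ⟨i, _ | _⟩ <;> simp [top, bot]

theorem bot_bar (P : SgPres A ι) (c : ι × Bool) : P.bot (c.1, !c.2) = P.top c := by
  rcases c with ⟨i, _ | _⟩ <;> simp [top, bot]

theorem top_length_pos (P : SgPres A ι) (c : ι × Bool) : 0 < (P.top c).length := by
  rw [List.length_pos_iff]
  rcases c with ⟨i, _ | _⟩
  · simpa [top] using P.r_ne i
  · simpa [top] using P.l_ne i

theorem bot_length_pos (P : SgPres A ι) (c : ι × Bool) : 0 < (P.bot c).length := by
  rw [List.length_pos_iff]
  rcases c with ⟨i, _ | _⟩
  · simpa [bot] using P.l_ne i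
  · simpa [bot] using P.r_ne i

theorem Der.append {P : SgPres A ι} {w w' w'' : List A} {p q : List (ℕ × (ι × Bool))}
    (hp : P.Der w p w') (hq : P.Der w' q w'') : P.Der w (p ++ q) w'' := by
  induction hp with
  | nil w => exact hq
  | cons u v c p w' h ih => exact .cons u v c _ _ (ih hq)

theorem Der.mirror {P : SgPres A ι} {w w' : List A} {p : List (ℕ × (ι × Bool))}
    (hp : P.Der w p w') : P.Der w' (mirror p) w := by
  induction hp with
  | nil w => exact .nil w
  | cons u v c p w' h ih =>
    have h1 : P.Der (u ++ P.bot c ++ v) [(u.length, (c.1, !c.2))] (u ++ P.top c ++ v) := by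
      have := Der.cons (P := P) u v (c.1, !c.2) [] _ (.nil _)
      rwa [top_bar, bot_bar] at this
    simpa [SgPres.mirror, bar] using ih.append h1

theorem Swap.append_left {P : SgPres A ι} {p q : List (ℕ × (ι × Bool))} (h : P.Swap p q)
    (r : List (ℕ × (ι × Bool))) : P.Swap (r ++ p) (r ++ q) := by
  cases h with
  | mk p q m n c d h =>
    rw [← List.append_assoc, ← List.append_assoc]
    exact .mk _ _ _ _ _ _ h

theorem Swap.append_right {P : SgPres A ι} {p q : List (ℕ × (ι × Bool))} (h : P.Swap p q)
    (r : List (ℕ × (ι × Bool))) : P.Swap (p ++ r) (q ++ r) := by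
  cases h with
  | mk p q m n c d h =>
    simp only [List.append_assoc, List.cons_append]
    exact .mk _ _ _ _ _ _ h

theorem Dipole.append_left {p q : List (ℕ × (ι × Bool))} (h : Dipole p q)
    (r : List (ℕ × (ι × Bool))) : Dipole (r ++ p) (r ++ q) := by
  cases h with
  | mk p q m c =>
    rw [← List.append_assoc, ← List.append_assoc]
    exact .mk _ _ _ _

theorem Dipole.append_right {p q : List (ℕ × (ι × Bool))} (h : Dipole p q)
    (r : List (ℕ × (ι × Bool))) : Dipole (p ++ r) (q ++ r) := by
  cases h with
  | mk p q m c =>
    simp only [List.append_assoc, List.cons_append]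
    exact .mk _ _ _ _

theorem mirror_append (p q : List (ℕ × (ι × Bool))) : mirror (p ++ q) = mirror q ++ mirror p := by
  simp [mirror]

theorem mirror_mirror (p : List (ℕ × (ι × Bool))) : mirror (mirror p) = p := by
  simp [mirror, Function.comp_def]

theorem Swap.mirror {P : SgPres A ι} {p q : List (ℕ × (ι × Bool))} (h : P.Swap p q) :
    P.Swap (mirror q) (mirror p) := by
  cases h with
  | mk p q m n c d h =>
    have h1 : m + (P.bot (c.1, !c.2)).length ≤ n - (P.bot c).length + (P.top c).length := by
      rw [bot_bar]; omega
    have h2 := Swap.mk (P := P) (SgPres.mirror q) (SgPres.mirror p) m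
      (n - (P.bot c).length + (P.top c).length) (c.1, !c.2) (d.1, !d.2) h1
    rw [bot_bar, top_bar] at h2
    have h3 : n - (P.bot c).length + (P.top c).length - (P.top c).length + (P.bot c).length = n := by
      omega
    rw [h3] at h2
    simpa [SgPres.mirror, bar] using h2

theorem Dipole.mirror {p q : List (ℕ × (ι × Bool))} (h : Dipole p q) :
    Dipole (mirror p) (mirror q) := by
  cases h with
  | mk p q m c =>
    have h2 := Dipole.mk (SgPres.mirror q) (SgPres.mirror p) m c
    simpa [SgPres.mirror, bar] using h2

namespace DiagramGroup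

variable {P : SgPres A ι} {w : List A}

/-- The element of the diagram group represented by a closed derivation. -/
def of (p : {p : List (ℕ × (ι × Bool)) // P.Der w p w}) : DiagramGroup P w := Quot.mk _ p

/-- concatenation of closed derivations -/
def cat (p q : {p : List (ℕ × (ι × Bool)) // P.Der w p w}) :
    {p : List (ℕ × (ι × Bool)) // P.Der w p w} := ⟨p.1 ++ q.1, p.2.append q.2⟩

/-- mirror image of a closed derivation -/
def flip (p : {p : List (ℕ × (ι × Bool)) // P.Der w p w}) :
    {p : List (ℕ × (ι × Bool)) // P.Der w p w} := ⟨mirror p.1, p.2.mirror⟩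

/-- The product of the diagram group is induced by the concatenation of diagrams. -/
instance : Mul (DiagramGroup P w) where
  mul := Quot.map₂ cat
    (fun p _ _ h => h.imp (fun h => h.append_left p.1) (fun h => h.append_left p.1))
    (fun _ _ q h => h.imp (fun h => h.append_right q.1) (fun h => h.append_right q.1))

/-- The neutral element is the class of the diagram without cells. -/
instance : One (DiagramGroup P w) where
  one := of ⟨[], .nil w⟩

/-- Inverses are given by mirror images. -/
instance : Inv (DiagramGroup P w) where
  inv := Quot.lift (fun p => of (flip p)) (by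
    rintro p q (h | h)
    · exact (Quot.sound (Or.inl h.mirror) : of (flip q) = of (flip p)).symm
    · exact (Quot.sound (Or.inr h.mirror) : of (flip p) = of (flip q)))

theorem of_mul (p q : {p : List (ℕ × (ι × Bool)) // P.Der w p w}) : of p * of q = of (cat p q) :=
  rfl

theorem of_inv (p : {p : List (ℕ × (ι × Bool)) // P.Der w p w}) : (of p)⁻¹ = of (flip p) := rfl

theorem of_one : (1 : DiagramGroup P w) = of ⟨[], .nil w⟩ := rfl

theorem Der.mirror_append_self {P : SgPres A ι} {w w' : List A} {p : List (ℕ × (ι × Bool))}
    (hp : P.Der w p w') : ∀ (h : P.Der w' (mirror p ++ p) w'),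
    Quot.mk (fun p q : {p : List (ℕ × (ι × Bool)) // P.Der w' p w'} =>
      P.Swap p.1 q.1 ∨ Dipole p.1 q.1) ⟨mirror p ++ p, h⟩ = Quot.mk _ ⟨[], .nil w'⟩ := by
  induction hp with
  | nil w => intro h; rfl
  | cons u v c p w' h ih =>
    intro h'
    rw [← ih (h.mirror.append h)]
    refine Quot.sound (Or.inr ?_)
    have h2 := Dipole.mk (mirror p) p u.length (c.1, !c.2)
    simpa [mirror, bar] using h2

instance : Group (DiagramGroup P w) where
  mul_assoc := by
    rintro ⟨p⟩ ⟨q⟩ ⟨r⟩
    show of (cat (cat p q) r) = of (cat p (cat q r))
    congr 1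
    exact Subtype.ext (List.append_assoc _ _ _)
  one_mul := by
    rintro ⟨p⟩
    rfl
  mul_one := by
    rintro ⟨p⟩
    show of (cat p ⟨[], .nil w⟩) = of p
    congr 1
    exact Subtype.ext (List.append_nil _)
  inv_mul_cancel := by
    rintro ⟨p⟩
    exact Der.mirror_append_self p.2 _

end DiagramGroup

/-- `P.IsDiagramLength g n`: the reduced diagrams representing `g` have exactly `n` cells; that
is, `g` is represented by a reduced diagram, and all reduced diagrams representing `g` have `n`
cells. -/
def IsDiagramLength (P : SgPres A ι) {w : List A} (g : DiagramGroup P w) (n : ℕ) : Prop :=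
  (∃ p : {p : List (ℕ × (ι × Bool)) // P.Der w p w}, P.IsReduced p.1 ∧ DiagramGroup.of p = g) ∧
  ∀ p : {p : List (ℕ × (ι × Bool)) // P.Der w p w}, P.IsReduced p.1 → DiagramGroup.of p = g →
    p.1.length = n

end SgPres

/-- Word length of `g` with respect to `S`: the least `k` such that `g` is a product of `k`
elements of `S ∪ S⁻¹`. -/
noncomputable def wordLength {G : Type*} [Group G] (S : Set G) (g : G) : ℕ :=
  sInf {k | ∃ l : List G, l.length = k ∧ (∀ x ∈ l, x ∈ S ∨ x⁻¹ ∈ S) ∧ l.prod = g}

end Pool.Agent.Work.MP_5cc51b_al
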