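import Pool.Agent.Work.MP_5cc51b_al.Val

/-!
# Diagram length and word length
-/

set_option autoImplicit false

namespace Pool.Agent.Work.MP_5cc51b_al

section WL

variable {G : Type*} [Group G] {S : Set G}

theorem wl_exists (hS : Subgroup.closure S = ⊤) (g : G) :
    ∃ l : List G, l.length = wordLength S g ∧ (∀ x ∈ l, x ∈ S ∨ x⁻¹ ∈ S) ∧ l.prod = g := by
  apply Nat.sInf_mem (s := {k | ∃ l : List G, l.length = k ∧ (∀ x ∈ l, x ∈ S ∨ x⁻¹ ∈ S) ∧
    l.prod = g})
  have h1 : g ∈ (Subgroup.closure S).toSubmonoid := by rw [hS]; trivial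
  rw [Subgroup.closure_toSubmonoid] at h1
  obtain ⟨l, hl, hp⟩ := Submonoid.exists_list_of_mem_closure h1
  exact ⟨l.length, l, rfl, fun x hx => by simpa using hl x hx, hp⟩

theorem wl_le {g : G} (l : List G) (hl : ∀ x ∈ l, x ∈ S ∨ x⁻¹ ∈ S) (hp : l.prod = g) :
    wordLength S g ≤ l.length := Nat.sInf_le ⟨l, rfl, hl, hp⟩

theorem wl_one : wordLength S (1 : G) = 0 :=
  Nat.le_zero.1 (wl_le [] (by simp) (by simp))

theorem wl_mul (hS : Subgroup.closure S = ⊤) (g h : G) :
    wordLength S (g * h) ≤ wordLength S g + wordLength S h := by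
  obtain ⟨l, h1, h2, h3⟩ := wl_exists hS g
  obtain ⟨l', h1', h2', h3'⟩ := wl_exists hS h
  have := wl_le (S := S) (l ++ l') (g := g * h)
    (fun x hx => by
      rcases List.mem_append.1 hx with hx | hx
      · exact h2 x hx
      · exact h2' x hx) (by simp [h3, h3'])
  simpa [h1, h1'] using this

theorem wl_inv (hS : Subgroup.closure S = ⊤) (g : G) :
    wordLength S g⁻¹ ≤ wordLength S g := by
  obtain ⟨l, h1, h2, h3⟩ := wl_exists hS g
  have := wl_le (S := S) (l.map (·⁻¹)).reverse (g := g⁻¹)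
    (fun x hx => by
      simp only [List.mem_reverse, List.mem_map] at hx
      obtain ⟨y, hy, rfl⟩ := hx
      rw [inv_inv]
      exact (h2 y hy).symm) (by rw [← h3, List.prod_inv_reverse])
  simpa [h1] using this

end WL

namespace SgPres

variable {A ι : Type*} [DecidableEq ι] {P : SgPres A ι}

/-- representatives of the classes -/
noncomputable def irr {P : SgPres A ι} (s : Cls P) : List A := Quotient.out s

omit [DecidableEq ι] in
theorem cls_irr (s : Cls P) : P.cls (irr s) = s := Quotient.out_eq (s := P.setoid) s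

omit [DecidableEq ι] in
theorem irr_nil : irr (P.cls []) = [] := by
  have h := cls_irr (P.cls [])
  obtain ⟨p, hp⟩ := cls_eq.1 h.symm
  generalize irr (P.cls []) = z at hp
  generalize hy : ([] : List A) = y at hp ⊢
  cases hp with
  | nil => rfl
  | cons u v c p _ h =>
    have := P.top_length_pos c
    have h2 := congrArg List.length hy
    simp only [List.length_nil, List.length_append] at h2
    omega

open Classical in
/-- a chosen derivation -/
noncomputable def path (P : SgPres A ι) (u v : List A) : List (ℕ × (ι × Bool)) :=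
  if h : ∃ p, P.Der u p v then h.choose else []

omit [DecidableEq ι] in
theorem path_der {u v : List A} (h : P.cls u = P.cls v) : P.Der u (P.path u v) v := by
  have h1 := cls_eq.1 h
  rw [path, dif_pos h1]
  exact h1.choose_spec

/-- `irr(s) x → irr(s x)` -/
noncomputable def alp (P : SgPres A ι) (s : Cls P) (x : A) : List (ℕ × (ι × Bool)) :=
  P.path (irr s ++ [x]) (irr (P.cls (irr s ++ [x])))

/-- `x irr(t) → irr(x t)` -/
noncomputable def bet (P : SgPres A ι) (x : A) (t : Cls P) : List (ℕ × (ι × Bool)) :=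
  P.path (x :: irr t) (irr (P.cls (x :: irr t)))

omit [DecidableEq ι] in
theorem alp_der (s : Cls P) (x : A) :
    P.Der (irr s ++ [x]) (P.alp s x) (irr (P.cls (irr s ++ [x]))) :=
  path_der (cls_irr _).symm

omit [DecidableEq ι] in
theorem bet_der (x : A) (t : Cls P) :
    P.Der (x :: irr t) (P.bet x t) (irr (P.cls (x :: irr t))) :=
  path_der (cls_irr _).symm

/-- left-to-right reduction of the reversed word -/
noncomputable def nuLr (P : SgPres A ι) : List A → List (ℕ × (ι × Bool))
  | [] => []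
  | x :: u => nuLr P u ++ P.alp (P.cls u.reverse) x

/-- left-to-right reduction `u → irr(u)` -/
noncomputable def nuL (P : SgPres A ι) (u : List A) : List (ℕ × (ι × Bool)) :=
  P.nuLr u.reverse

/-- right-to-left reduction `v → irr(v)` -/
noncomputable def nuR (P : SgPres A ι) : List A → List (ℕ × (ι × Bool))
  | [] => []
  | x :: v => shift 1 (nuR P v) ++ P.bet x (P.cls v)

omit [DecidableEq ι] in
theorem nuL_nil : P.nuL [] = [] := rfl

omit [DecidableEq ι] in
theorem nuL_snoc (u : List A) (x : A) : P.nuL (u ++ [x]) = P.nuL u ++ P.alp (P.cls u) x := by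
  simp [nuL, nuLr]

omit [DecidableEq ι] in
theorem cls_irr_append_left (u z : List A) :
    P.cls (irr (P.cls u) ++ z) = P.cls (u ++ z) := cls_congr (cls_irr _) rfl

omit [DecidableEq ι] in
theorem cls_irr_append_right (u z : List A) :
    P.cls (z ++ irr (P.cls u)) = P.cls (z ++ u) := cls_congr rfl (cls_irr _)

omit [DecidableEq ι] in
theorem nuL_der (u : List A) : P.Der u (P.nuL u) (irr (P.cls u)) := by
  induction u using List.reverseRecOn with
  | nil =>
    rw [irr_nil]
    exact .nil _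
  | append_singleton u x ih =>
    rw [nuL_snoc]
    have h1 := ih.append_word [x]
    have h2 := alp_der (P.cls u) x
    rw [cls_irr_append_left] at h2
    exact h1.append h2

omit [DecidableEq ι] in
theorem nuR_der (v : List A) : P.Der v (P.nuR v) (irr (P.cls v)) := by
  induction v with
  | nil =>
    rw [irr_nil]
    exact .nil _
  | cons x v ih =>
    have h1 := ih.word_append [x]
    have h2 := bet_der x (P.cls v)
    have h3 : P.cls (x :: irr (P.cls v)) = P.cls (x :: v) := cls_irr_append_right v [x]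
    rw [h3] at h2
    exact h1.append h2

/-- `z irr(t) → irr(z t)` -/
noncomputable def BB (P : SgPres A ι) : List A → Cls P → List (ℕ × (ι × Bool))
  | [], _ => []
  | x :: z, t => shift 1 (BB P z t) ++ P.bet x (P.cls (z ++ irr t))

omit [DecidableEq ι] in
theorem nuR_append (z v : List A) :
    P.nuR (z ++ v) = shift z.length (P.nuR v) ++ P.BB z (P.cls v) := by
  induction z with
  | nil => simp [BB, shift]
  | cons x z ih =>
    rw [List.cons_append, nuR, ih, BB, cls_irr_append_right, shift_append, shift_shift,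
      List.length_cons, List.append_assoc, add_comm z.length]

/-- the chosen derivation `w → u v`, as a permutation -/
noncomputable def PP (P : SgPres A ι) (w u v : List A) : Equiv.Perm (NRL P) :=
  P.val (P.path w (irr (P.cls u) ++ irr (P.cls v))) * (P.val (P.nuL u))⁻¹ *
    (P.val (shift u.length (P.nuR v)))⁻¹

theorem PP_exists {w u v : List A} (h : P.cls (u ++ v) = P.cls w) :
    ∃ p, P.Der w p (u ++ v) ∧ P.val p = P.PP w u v := by
  refine ⟨P.path w (irr (P.cls u) ++ irr (P.cls v)) ++ mirror (P.nuL u) ++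
    mirror (shift u.length (P.nuR v)), ?_, ?_⟩
  · refine Der.append (Der.append (path_der ?_) ((nuL_der u).mirror.append_word _))
      ((nuR_der v).word_append u).mirror
    rw [← h]
    exact cls_congr (cls_irr _).symm (cls_irr _).symm
  · rw [val_append, val_append, val_mirror, val_mirror]
    rfl

theorem rep_exists {w z : List A} {p q : List (ℕ × (ι × Bool))} (hp : P.Der w p z)
    (hq : P.Der w q z) : ∃ g : DiagramGroup P w, P.rep w g = P.val p * (P.val q)⁻¹ := by
  refine ⟨DiagramGroup.of ⟨p ++ mirror q, hp.append hq.mirror⟩, ?_⟩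
  rw [rep_of]
  simp only
  rw [val_append, val_mirror]

theorem PP_quot {w u v u' v' : List A} (h : P.cls (u ++ v) = P.cls w) (h' : u ++ v = u' ++ v') :
    ∃ g : DiagramGroup P w, P.rep w g = P.PP w u v * (P.PP w u' v')⁻¹ := by
  obtain ⟨p, hp1, hp2⟩ := PP_exists h
  obtain ⟨q, hq1, hq2⟩ := PP_exists (P := P) (w := w) (u := u') (v := v') (by rw [← h', h])
  rw [← hp2, ← hq2]
  rw [← h'] at hq1
  exact rep_exists hp1 hq1

/-- moving the head over a letter -/
noncomputable def hV (P : SgPres A ι) (w : List A) (t : Cls P × A × Cls P) :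
    Equiv.Perm (NRL P) :=
  P.val (P.path w (irr t.1 ++ irr (P.cls (t.2.1 :: irr t.2.2)))) *
    (P.val (shift (irr t.1).length (P.bet t.2.1 t.2.2)))⁻¹ * P.val (P.alp t.1 t.2.1) *
    (P.val (P.path w (irr (P.cls (irr t.1 ++ [t.2.1])) ++ irr t.2.2)))⁻¹

/-- applying a cell at the head -/
noncomputable def kV (P : SgPres A ι) (w : List A) (t : Cls P × (ι × Bool) × Cls P) :
    Equiv.Perm (NRL P) :=
  P.val (P.path w (irr t.1 ++ irr (P.cls (P.top t.2.1 ++ irr t.2.2)))) *
    P.val (shift (irr t.1).length (mirror (P.BB (P.top t.2.1) t.2.2) ++ [(0, t.2.1)] ++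
      P.BB (P.bot t.2.1) t.2.2)) *
    (P.val (P.path w (irr t.1 ++ irr (P.cls (P.bot t.2.1 ++ irr t.2.2)))))⁻¹

theorem PP_head (w u v : List A) (x : A) :
    P.PP w u (x :: v) * (P.PP w (u ++ [x]) v)⁻¹ = P.hV w (P.cls u, x, P.cls v) := by
  have e1 : P.cls (x :: irr (P.cls v)) = P.cls (x :: v) := cls_irr_append_right v [x]
  have e2 : P.cls (irr (P.cls u) ++ [x]) = P.cls (u ++ [x]) := cls_irr_append_left u [x]
  have e3 : shift u.length (P.nuR (x :: v)) =
      shift (u.length + 1) (P.nuR v) ++ shift u.length (P.bet x (P.cls v)) := by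
    rw [nuR, shift_append, shift_shift]
  have e4 := val_shift_der (nuL_der (P := P) u) (P.bet x (P.cls v))
  have e5 : (u ++ [x]).length = u.length + 1 := by simp
  simp only [PP, hV, e1, e2, e3, nuL_snoc, val_append, e5]
  have e6 : (P.val (shift (irr (P.cls u)).length (P.bet x (P.cls v))))⁻¹ =
      (P.val (P.nuL u))⁻¹ * (P.val (shift u.length (P.bet x (P.cls v))))⁻¹ * P.val (P.nuL u) := by
    rw [← mul_inv_rev, e4, mul_inv_rev, mul_assoc, inv_mul_cancel, mul_one]
  rw [e6]
  group

theorem PP_cell (w u v : List A) (c : ι × Bool) :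
    P.PP w u (P.top c ++ v) * P.val [(u.length, c)] * (P.PP w u (P.bot c ++ v))⁻¹ =
      P.kV w (P.cls u, c, P.cls v) := by
  have e1 : ∀ z, P.cls (z ++ irr (P.cls v)) = P.cls (z ++ v) := fun z =>
    cls_irr_append_right v z
  have e3 : ∀ z : List A, shift u.length (P.nuR (z ++ v)) =
      shift (u.length + z.length) (P.nuR v) ++ shift u.length (P.BB z (P.cls v)) := by
    intro z
    rw [nuR_append, shift_append, shift_shift]
  have e4 := val_shift_der (nuL_der (P := P) u) (mirror (P.BB (P.top c) (P.cls v)) ++ [(0, c)] ++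
      P.BB (P.bot c) (P.cls v))
  have e5 := P.val_shift_cell u.length 0 c (P.nuR v)
  simp only [add_zero, tl, bl] at e5
  have e7 : shift u.length [(0, c)] = [(u.length, c)] := by simp [shift]
  simp only [PP, kV, e1, e3]
  have e6 : P.val (shift (irr (P.cls u)).length (mirror (P.BB (P.top c) (P.cls v)) ++ [(0, c)] ++
      P.BB (P.bot c) (P.cls v))) =
      (P.val (P.nuL u))⁻¹ * P.val (shift u.length (mirror (P.BB (P.top c) (P.cls v)) ++
        [(0, c)] ++ P.BB (P.bot c) (P.cls v))) * P.val (P.nuL u) := by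
    rw [mul_assoc, e4, inv_mul_cancel_left]
  rw [e6, shift_append, shift_append, shift_mirror, e7]
  simp only [val_append, val_mirror]
  have e8 : P.val [(u.length, c)] = (P.val (shift (u.length + (P.top c).length) (P.nuR v)))⁻¹ *
    (P.val [(u.length, c)] * P.val (shift (u.length + (P.bot c).length) (P.nuR v))) := by
    rw [← e5, inv_mul_cancel_left]
  generalize P.val (P.nuL u) = NL
  generalize P.val (shift u.length (P.BB (P.top c) (P.cls v))) = b1 at *
  generalize P.val (shift u.length (P.BB (P.bot c) (P.cls v))) = b2 at *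
  generalize P.val (shift (u.length + (P.top c).length) (P.nuR v)) = r1 at *
  generalize P.val (shift (u.length + (P.bot c).length) (P.nuR v)) = r2 at *
  generalize P.val [(u.length, c)] = C at *
  generalize P.val (P.path w (irr (P.cls u) ++ irr (P.cls (P.top c ++ v)))) = q1
  generalize P.val (P.path w (irr (P.cls u) ++ irr (P.cls (P.bot c ++ v)))) = q2
  have e9 : C * r2 = r1 * C := e5.symm
  calc q1 * NL⁻¹ * (r1 * b1)⁻¹ * C * (q2 * NL⁻¹ * (r2 * b2)⁻¹)⁻¹
      = q1 * NL⁻¹ * b1⁻¹ * r1⁻¹ * (C * r2) * b2 * NL * q2⁻¹ := by group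
    _ = q1 * (NL⁻¹ * (b1⁻¹ * C * b2) * NL) * q2⁻¹ := by rw [e9]; group

/-- moving the head by several letters to the right -/
theorem move_right {w : List A} {S : Set (DiagramGroup P w)} (hS : Subgroup.closure S = ⊤)
    {T : Set (Cls P × A × Cls P)} {K : ℕ}
    (hK : ∀ g t, t ∈ T → P.rep w g = P.hV w t → wordLength S g ≤ K)
    (y u v : List A) (h1 : P.cls (u ++ (y ++ v)) = P.cls w) (h2 : P.LT T [] (u ++ (y ++ v)) []) :
    ∃ g : DiagramGroup P w, P.PP w u (y ++ v) = P.rep w g * P.PP w (u ++ y) v ∧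
      wordLength S g ≤ K * y.length := by
  induction y generalizing u with
  | nil => exact ⟨1, by simp, by simp [wl_one]⟩
  | cons x y ih =>
    have e1 : u ++ (x :: y ++ v) = (u ++ [x]) ++ (y ++ v) := by simp
    obtain ⟨g, hg1, hg2⟩ := ih (u ++ [x]) (by rw [← e1]; exact h1) (by rw [← e1]; exact h2)
    obtain ⟨g', hg'⟩ := PP_quot h1 e1
    refine ⟨g' * g, ?_, ?_⟩
    · rw [map_mul, hg', mul_assoc]
      have e2 : u ++ x :: y = u ++ [x] ++ y := by simp
      rw [e2, ← hg1]
      group
    · have h3 : (P.cls u, x, P.cls (y ++ v)) ∈ T := by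
        have := h2 u x (y ++ v) (by simp)
        simpa using this
      have h4 : wordLength S g' ≤ K := hK g' _ h3 (by rw [hg', ← PP_head]; rfl)
      have h5 := wl_mul hS g' g
      rw [List.length_cons]
      calc _ ≤ _ := h5
        _ ≤ K + K * y.length := by omega
        _ = _ := by ring

theorem move {w : List A} {S : Set (DiagramGroup P w)} (hS : Subgroup.closure S = ⊤)
    {T : Set (Cls P × A × Cls P)} {K : ℕ}
    (hK : ∀ g t, t ∈ T → P.rep w g = P.hV w t → wordLength S g ≤ K)
    (u v u' v' : List A) (h : u ++ v = u' ++ v') (h1 : P.cls (u ++ v) = P.cls w)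
    (h2 : P.LT T [] (u ++ v) []) :
    ∃ g : DiagramGroup P w, ∃ n : ℕ, P.PP w u v = P.rep w g * P.PP w u' v' ∧
      wordLength S g ≤ K * n ∧ n = (u.length - u'.length) + (u'.length - u.length) := by
  rcases List.append_eq_append_iff.1 h with ⟨c, hc1, hc2⟩ | ⟨c, hc1, hc2⟩
  · subst hc1 hc2
    obtain ⟨g, hg1, hg2⟩ := move_right hS hK c u v' h1 h2
    exact ⟨g, c.length, hg1, hg2, by simp⟩
  · subst hc1 hc2
    obtain ⟨g, hg1, hg2⟩ := move_right hS hK c u' v (by simpa using h1) (by simpa using h2)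
    refine ⟨g⁻¹, c.length, ?_, (wl_inv hS g).trans hg2, by simp⟩
    rw [hg1]
    simp

theorem main {w : List A} {S : Set (DiagramGroup P w)} (hS : Subgroup.closure S = ⊤)
    {T : Set (Cls P × A × Cls P)} {T' : Set (Cls P × (ι × Bool) × Cls P)} {K ρ : ℕ}
    (hK : ∀ g t, t ∈ T → P.rep w g = P.hV w t → wordLength S g ≤ K)
    (hK' : ∀ g t, t ∈ T' → P.rep w g = P.kV w t → wordLength S g ≤ K)
    {z w' : List A} {p : List (ℕ × (ι × Bool))} (hp : P.TDer T T' z p w') :
    P.cls z = P.cls w → ∀ u v : List A, z = u ++ v →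
    List.IsChain (fun a b => a < b + ρ) (u.length :: p.map Prod.fst) →
    ∃ g : DiagramGroup P w, ∃ n : ℕ, P.val p = (P.PP w u v)⁻¹ * P.rep w g * P.PP w [] w' ∧
      wordLength S g ≤ K * n ∧ n + u.length ≤ (1 + 2 * ρ) * p.length + 2 * w'.length := by
  induction hp with
  | nil z hz =>
    rintro hz1 u v rfl -
    obtain ⟨g, n, h1, h2, h3⟩ := move hS hK u v [] (u ++ v) rfl hz1 hz
    refine ⟨g, n, ?_, h2, ?_⟩
    · rw [h1]
      simp
    · simp only [List.length_nil, List.length_append] at *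
      omega
  | cons a b c p w' hp hw hc ih =>
    intro hz u v huv hch
    rw [List.map_cons, List.isChain_cons_cons] at hch
    simp only at hch
    have e1 : a ++ P.bot c ++ b = a ++ (P.bot c ++ b) := by simp
    have e2 : a ++ P.top c ++ b = a ++ (P.top c ++ b) := by simp
    have hz' : P.cls (a ++ P.bot c ++ b) = P.cls w := by
      rw [← hz]
      exact cls_congr (cls_congr rfl (P.cls_top_bot c).symm) rfl
    obtain ⟨g, n, h1, h2, h3⟩ := ih hz' a (P.bot c ++ b) e1 hch.2
    obtain ⟨g₁, n₁, h4, h5, h6⟩ := move hS hK u v a (P.top c ++ b) (by rw [← huv, e2])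
      (by rw [← huv, hz]) (by rw [← huv]; exact hw)
    have h7 := PP_cell (P := P) w a b c
    obtain ⟨p₁, hp₁, hp₁'⟩ := PP_exists (P := P) (w := w) (u := a) (v := P.top c ++ b)
      (by rw [← e2]; exact hz)
    obtain ⟨p₂, hp₂, hp₂'⟩ := PP_exists (P := P) (w := w) (u := a) (v := P.bot c ++ b)
      (by rw [← e1]; exact hz')
    have hcell : P.Der (a ++ (P.top c ++ b)) [(a.length, c)] (a ++ (P.bot c ++ b)) := by
      have := Der.cons (P := P) a b c [] _ (.nil _)
      rwa [e1, e2] at this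
    obtain ⟨g₂, hg₂⟩ := rep_exists (hp₁.append hcell) hp₂
    rw [val_append, hp₁', hp₂', h7] at hg₂
    have h8 := hK' g₂ _ hc hg₂
    refine ⟨g₁ * g₂ * g, n₁ + 1 + n, ?_, ?_, ?_⟩
    · rw [val_cons, h1, map_mul, map_mul, hg₂, ← h7, h4]
      group
    · have h9 := wl_mul hS (g₁ * g₂) g
      have h10 := wl_mul hS g₁ g₂
      calc _ ≤ K * n₁ + K + K * n := by omega
        _ = _ := by ring
    · have h11 := hch.1
      simp only [List.length_cons] at *
      have : (1 + 2 * ρ) * (p.length + 1) = (1 + 2 * ρ) * p.length + (1 + 2 * ρ) := by ring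
      rw [this]
      omega

omit [DecidableEq ι] in
theorem TDer.mem_types {T : Set (Cls P × A × Cls P)} {T' : Set (Cls P × (ι × Bool) × Cls P)}
    {w w' : List A} {p : List (ℕ × (ι × Bool))} (h : P.TDer T T' w p w') :
    ∀ s ∈ p, ∃ a b, (a, s.2, b) ∈ T' := by
  induction h with
  | nil => simp
  | cons u v c p w' h hw hc ih =>
    intro s hs
    rcases List.mem_cons.1 hs with rfl | hs
    · exact ⟨_, _, hc⟩
    · exact ih s hs

omit [DecidableEq ι] in
/-- every element is represented by a derivation with types in fixed finite sets -/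
theorem exists_types {w : List A} {S : Set (DiagramGroup P w)} (hfin : S.Finite)
    (hS : Subgroup.closure S = ⊤) :
    ∃ (T : Set (Cls P × A × Cls P)) (T' : Set (Cls P × (ι × Bool) × Cls P)),
      T.Finite ∧ T'.Finite ∧
      ∀ g : DiagramGroup P w, ∃ p, ∃ h : P.TDer T T' w p w, DiagramGroup.of ⟨p, h.der⟩ = g := by
  have h1 : ∀ g : DiagramGroup P w, ∃ (T : Set (Cls P × A × Cls P))
      (T' : Set (Cls P × (ι × Bool) × Cls P)), T.Finite ∧ T'.Finite ∧
      ∃ p, ∃ h : P.TDer T T' w p w, DiagramGroup.of ⟨p, h.der⟩ = g := by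
    intro g
    obtain ⟨⟨p, hp⟩, rfl⟩ := Quot.exists_rep g
    obtain ⟨T, T', h1, h2, h3⟩ := hp.exists_finite
    exact ⟨T, T', h1, h2, p, h3, rfl⟩
  choose T T' hT hT' p hp hpg using h1
  let U : Set (Cls P × A × Cls P) := T 1 ∪ ⋃ g ∈ S, T g
  let U₀ : Set (Cls P × (ι × Bool) × Cls P) := T' 1 ∪ ⋃ g ∈ S, T' g
  let U' : Set (Cls P × (ι × Bool) × Cls P) :=
    U₀ ∪ (fun t : Cls P × (ι × Bool) × Cls P => (t.1, (t.2.1.1, !t.2.1.2), t.2.2)) '' U₀
  have hU : U.Finite := (hT 1).union (hfin.biUnion (fun g _ => hT g))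
  have hU₀ : U₀.Finite := (hT' 1).union (hfin.biUnion (fun g _ => hT' g))
  have hU' : U'.Finite := hU₀.union (hU₀.image _)
  have hbar : ∀ s c t, (s, c, t) ∈ U' → (s, (c.1, !c.2), t) ∈ U' := by
    rintro s c t (h | ⟨⟨s', c', t'⟩, h, h'⟩)
    · exact Or.inr ⟨_, h, rfl⟩
    · simp only [Prod.mk.injEq] at h'
      obtain ⟨rfl, rfl, rfl⟩ := h'
      refine Or.inl ?_
      simpa using h
  refine ⟨U, U', hU, hU', ?_⟩
  intro g
  have hg : g ∈ Subgroup.closure S := by rw [hS]; trivial
  induction hg using Subgroup.closure_induction with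
  | mem g hg =>
    have h1 : T g ⊆ U := fun x hx => Or.inr (Set.mem_biUnion hg hx)
    have h2 : T' g ⊆ U' := fun x hx => Or.inl (Or.inr (Set.mem_biUnion hg hx))
    exact ⟨p g, (hp g).mono h1 h2, hpg g⟩
  | one =>
    have h1 : T 1 ⊆ U := fun x hx => Or.inl hx
    have h2 : T' 1 ⊆ U' := fun x hx => Or.inl (Or.inl hx)
    exact ⟨p 1, (hp 1).mono h1 h2, hpg 1⟩
  | mul g g' _ _ ih ih' =>
    obtain ⟨q, hq, hq'⟩ := ih
    obtain ⟨r, hr, hr'⟩ := ih'
    refine ⟨q ++ r, hq.append hr, ?_⟩
    rw [← hq', ← hr']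
    rfl
  | inv g _ ih =>
    obtain ⟨q, hq, hq'⟩ := ih
    refine ⟨mirror q, hq.mirror hbar, ?_⟩
    rw [← hq']
    rfl

theorem exists_bound {X : Type*} (f : X → ℕ) {S : Set X} (hS : S.Finite) :
    ∃ K, ∀ x ∈ S, f x ≤ K := by
  obtain ⟨K, hK⟩ := (hS.image f).bddAbove
  exact ⟨K, fun x hx => hK ⟨x, hx, rfl⟩⟩

/-- the word length is bounded by a linear function of the number of cells -/
theorem upper {w : List A} {S : Set (DiagramGroup P w)} (hfin : S.Finite)
    (hS : Subgroup.closure S = ⊤) :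
    ∃ C : ℕ, ∀ g : DiagramGroup P w, wordLength S g ≤ C * (gnf g).length := by
  obtain ⟨T, T', hT, hT', hrep⟩ := exists_types hfin hS
  obtain ⟨ρ₀, hρ⟩ := exists_bound (fun t : Cls P × (ι × Bool) × Cls P => P.tl t.2.1) hT'
  have hK1 : {g : DiagramGroup P w | ∃ t ∈ T, P.rep w g = P.hV w t}.Finite := by
    refine ((hT.image (P.hV w)).preimage (f := P.rep w)
      (P.rep_injective w).injOn).subset ?_
    rintro g ⟨t, ht, h⟩
    exact ⟨t, ht, h.symm⟩
  have hK2 : {g : DiagramGroup P w | ∃ t ∈ T', P.rep w g = P.kV w t}.Finite := by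
    refine ((hT'.image (P.kV w)).preimage (f := P.rep w)
      (P.rep_injective w).injOn).subset ?_
    rintro g ⟨t, ht, h⟩
    exact ⟨t, ht, h.symm⟩
  obtain ⟨K, hK⟩ := exists_bound (wordLength S) (hK1.union hK2)
  obtain ⟨e, he⟩ : ∃ e : DiagramGroup P w, P.rep w e = P.PP w [] w := by
    obtain ⟨p, hp, hp'⟩ := PP_exists (P := P) (w := w) (u := []) (v := w) rfl
    exact ⟨DiagramGroup.of ⟨p, hp⟩, hp'⟩
  refine ⟨2 * wordLength S e + K * (1 + 2 * (ρ₀ + 1) + 2 * w.length), fun g => ?_⟩
  obtain ⟨p, hp, hpg⟩ := hrep g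
  have hnf : P.TDer T T' w (P.nf p).reverse w := hp.steps (P.steps_nf p)
  have hgnf : gnf g = P.nf p := by rw [← hpg]; rfl
  rw [hgnf]
  by_cases hN : (P.nf p).length = 0
  · have h1 : P.nf p = [] := List.length_eq_zero_iff.1 hN
    have h2 : g = 1 := by
      rw [← hpg, of_nf hp.der]
      have : (⟨(P.nf p).reverse, hp.der.nf⟩ : {p // P.Der w p w}) = ⟨[], .nil w⟩ :=
        Subtype.ext (by simp [h1])
      rw [this]
      rfl
    rw [h2, wl_one]
    exact Nat.zero_le _
  have hch : List.IsChain (fun a b => a < b + (ρ₀ + 1))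
      (([] : List A).length :: (P.nf p).reverse.map Prod.fst) := by
    have h1 : List.IsChain (fun t' t : ℕ × (ι × Bool) => t ≠ bar t' ∧ t'.1 < t.1 + P.tl t.2)
        (P.nf p).reverse := List.isChain_reverse.2 (P.NR_nf p)
    have h2 : List.IsChain (fun a b => a < b + (ρ₀ + 1)) ((P.nf p).reverse.map Prod.fst) := by
      rw [List.isChain_map]
      refine h1.imp_of_mem_imp ?_
      intro s t hs ht hst
      obtain ⟨a, b, hab⟩ := hnf.mem_types t ht
      have := hρ _ hab
      simp only at this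
      omega
    cases hq : (P.nf p).reverse.map Prod.fst with
    | nil => exact List.isChain_singleton _
    | cons a l =>
      rw [hq] at h2
      refine List.isChain_cons_cons.2 ⟨?_, h2⟩
      simp
  obtain ⟨g', n, h1, h2, h3⟩ := main hS (fun g t ht h => hK g (Or.inl ⟨t, ht, h⟩))
    (fun g t ht h => hK g (Or.inr ⟨t, ht, h⟩)) hnf rfl [] w rfl hch
  have h4 : g = e⁻¹ * g' * e := by
    apply P.rep_injective w
    rw [map_mul, map_mul, map_inv, he, ← h1, ← hpg, of_nf hp.der]
    rfl
  have h5 := wl_mul hS (e⁻¹ * g') e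
  have h6 := wl_mul hS e⁻¹ g'
  have h7 := wl_inv hS e
  rw [← h4] at h5
  simp only [List.length_nil, add_zero, List.length_reverse] at h3
  obtain ⟨N, hN'⟩ : ∃ N, (P.nf p).length = N + 1 := ⟨(P.nf p).length - 1, by omega⟩
  rw [hN'] at h3 ⊢
  have h8 : K * n ≤ K * ((1 + 2 * (ρ₀ + 1)) * (N + 1) + 2 * w.length) :=
    Nat.mul_le_mul_left K h3
  have h9 : wordLength S g ≤ 2 * wordLength S e + K * ((1 + 2 * (ρ₀ + 1)) * (N + 1) +
      2 * w.length) := by omega
  refine h9.trans ?_
  have h10 : (2 * wordLength S e + K * (1 + 2 * (ρ₀ + 1) + 2 * w.length)) * (N + 1) =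
      2 * wordLength S e + K * ((1 + 2 * (ρ₀ + 1)) * (N + 1) + 2 * w.length) +
      (2 * wordLength S e * N + K * (2 * w.length) * N) := by ring
  rw [h10]
  exact Nat.le_add_right _ _

theorem gnf_mul_le {w : List A} (g h : DiagramGroup P w) :
    (gnf (g * h)).length ≤ (gnf g).length + (gnf h).length := by
  obtain ⟨⟨p, hp⟩, rfl⟩ := Quot.exists_rep g
  obtain ⟨⟨q, hq⟩, rfl⟩ := Quot.exists_rep h
  have h1 : (DiagramGroup.of ⟨p, hp⟩ * DiagramGroup.of ⟨q, hq⟩ : DiagramGroup P w) =
      DiagramGroup.of ⟨(P.nf p).reverse ++ (P.nf q).reverse, hp.nf.append hq.nf⟩ := by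
    rw [of_nf hp, of_nf hq]
    rfl
  show (gnf (DiagramGroup.of ⟨p, hp⟩ * DiagramGroup.of ⟨q, hq⟩)).length ≤
    (gnf (DiagramGroup.of ⟨p, hp⟩)).length + (gnf (DiagramGroup.of ⟨q, hq⟩)).length
  rw [h1, gnf_of, gnf_of, gnf_of]
  refine (P.nf_length_le _).trans ?_
  simp

theorem gnf_inv_le {w : List A} (g : DiagramGroup P w) :
    (gnf g⁻¹).length ≤ (gnf g).length := by
  obtain ⟨⟨p, hp⟩, rfl⟩ := Quot.exists_rep g
  have h1 : ((DiagramGroup.of ⟨p, hp⟩)⁻¹ : DiagramGroup P w) =
      DiagramGroup.of ⟨mirror (P.nf p).reverse, hp.nf.mirror⟩ := by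
    rw [of_nf hp]
    rfl
  show (gnf (DiagramGroup.of ⟨p, hp⟩)⁻¹).length ≤ (gnf (DiagramGroup.of ⟨p, hp⟩)).length
  rw [h1, gnf_of, gnf_of]
  refine (P.nf_length_le _).trans ?_
  simp [mirror]

theorem gnf_one {w : List A} : (gnf (1 : DiagramGroup P w)).length = 0 := rfl

/-- the number of cells is bounded by a linear function of the word length -/
theorem lower {w : List A} {S : Set (DiagramGroup P w)} (hfin : S.Finite)
    (hS : Subgroup.closure S = ⊤) :
    ∃ C : ℕ, ∀ g : DiagramGroup P w, (gnf g).length ≤ C * wordLength S g := by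
  obtain ⟨M, hM⟩ := exists_bound (fun g : DiagramGroup P w => (gnf g).length) hfin
  refine ⟨M, fun g => ?_⟩
  obtain ⟨l, h1, h2, rfl⟩ := wl_exists hS g
  rw [← h1]
  clear h1
  induction l with
  | nil => simp [gnf_one]
  | cons x l ih =>
    have h3 := ih (fun y hy => h2 y (List.mem_cons_of_mem _ hy))
    have h4 := gnf_mul_le x l.prod
    have h5 : (gnf x).length ≤ M := by
      rcases h2 x List.mem_cons_self with h | h
      · exact hM x h
      · have h6 := gnf_inv_le x⁻¹
        rw [inv_inv] at h6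
        exact h6.trans (hM _ h)
    rw [List.prod_cons, List.length_cons]
    calc _ ≤ _ := h4
      _ ≤ M + M * l.length := by omega
      _ = _ := by ring

end SgPres

end Pool.Agent.Work.MP_5cc51b_al
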