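import Pool.Agent.Work.MP_5cc51b_al.Defs

/-!
# Normal forms of derivations
-/

set_option autoImplicit false

namespace Pool.Agent.Work.MP_5cc51b_al

namespace SgPres

variable {A ι : Type*} [DecidableEq ι]

/-- length of the top label -/
def tl (P : SgPres A ι) (c : ι × Bool) : ℕ := (P.top c).length

/-- length of the bottom label -/
def bl (P : SgPres A ι) (c : ι × Bool) : ℕ := (P.bot c).length

omit [DecidableEq ι] in
theorem tl_pos (P : SgPres A ι) (c : ι × Bool) : 0 < P.tl c := P.top_length_pos c

omit [DecidableEq ι] in
theorem bl_pos (P : SgPres A ι) (c : ι × Bool) : 0 < P.bl c := P.bot_length_pos c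

omit [DecidableEq ι] in
theorem tl_bar (P : SgPres A ι) (s : ℕ × (ι × Bool)) : P.tl (bar s).2 = P.bl s.2 := by
  simp [tl, bl, bar, top_bar]

omit [DecidableEq ι] in
theorem bl_bar (P : SgPres A ι) (s : ℕ × (ι × Bool)) : P.bl (bar s).2 = P.tl s.2 := by
  simp [tl, bl, bar, bot_bar]

/-- insertion of a cell into a reversed normal form -/
def ins (P : SgPres A ι) (s : ℕ × (ι × Bool)) :
    List (ℕ × (ι × Bool)) → List (ℕ × (ι × Bool))
  | [] => [s]
  | t :: L =>
    if s = bar t then L
    else if s.1 + P.tl s.2 ≤ t.1 then (t.1 - P.tl s.2 + P.bl s.2, t.2) :: ins P s L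
    else s :: t :: L

/-- reversed normal forms -/
def NR (P : SgPres A ι) (L : List (ℕ × (ι × Bool))) : Prop :=
  List.IsChain (fun t t' => t ≠ bar t' ∧ t'.1 < t.1 + P.tl t.2) L

theorem ins_nil (P : SgPres A ι) (s : ℕ × (ι × Bool)) : P.ins s [] = [s] := rfl

theorem ins_bar (P : SgPres A ι) (s t : ℕ × (ι × Bool)) (L : List (ℕ × (ι × Bool)))
    (h : s = bar t) : P.ins s (t :: L) = L := by
  simp [ins, h]

theorem ins_le (P : SgPres A ι) (s t : ℕ × (ι × Bool)) (L : List (ℕ × (ι × Bool)))
    (h : s.1 + P.tl s.2 ≤ t.1) :
    P.ins s (t :: L) = (t.1 - P.tl s.2 + P.bl s.2, t.2) :: P.ins s L := by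
  have h1 : s ≠ bar t := by
    rintro rfl
    have := P.tl_pos (bar t).2
    simp only [bar] at *
    omega
  simp [ins, h1, h]

theorem ins_default (P : SgPres A ι) (s t : ℕ × (ι × Bool)) (L : List (ℕ × (ι × Bool)))
    (h1 : s ≠ bar t) (h : ¬ s.1 + P.tl s.2 ≤ t.1) :
    P.ins s (t :: L) = s :: t :: L := by
  simp [ins, h1, h]

theorem ins_default' (P : SgPres A ι) (s t : ℕ × (ι × Bool)) (L : List (ℕ × (ι × Bool)))
    (h : t.1 < s.1) :
    P.ins s (t :: L) = s :: t :: L := by
  apply ins_default
  · rintro rfl
    simp [bar] at h
  · omega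

omit [DecidableEq ι] in
theorem NR.tail {P : SgPres A ι} {t : ℕ × (ι × Bool)} {L : List (ℕ × (ι × Bool))}
    (h : P.NR (t :: L)) : P.NR L := List.IsChain.tail h

theorem ins_of_NR {P : SgPres A ι} {t : ℕ × (ι × Bool)} {L : List (ℕ × (ι × Bool))}
    (h : P.NR (t :: L)) : P.ins t L = t :: L := by
  cases L with
  | nil => rfl
  | cons t' L =>
    obtain ⟨⟨h1, h2⟩, -⟩ := List.isChain_cons_cons.1 h
    exact ins_default _ _ _ _ h1 (by omega)

/-- (L1) -/
theorem ins_bar_ins (P : SgPres A ι) (s : ℕ × (ι × Bool)) (L : List (ℕ × (ι × Bool)))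
    (h : P.NR L) : P.ins (bar s) (P.ins s L) = L := by
  induction L with
  | nil => simp [ins]
  | cons t L ih =>
    by_cases h1 : s = bar t
    · rw [ins_bar _ _ _ _ h1, h1, bar_bar, ins_of_NR h]
    by_cases h2 : s.1 + P.tl s.2 ≤ t.1
    · rw [ins_le _ _ _ _ h2, ins_le]
      · rw [ih h.tail, tl_bar, bl_bar]
        have := P.bl_pos s.2
        congr 1
        apply Prod.ext
        · simp only
          omega
        · rfl
      · rw [tl_bar]
        simp only [bar]
        omega
    · rw [ins_default _ _ _ _ h1 h2, ins_bar]
      rfl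

/-- (L3) -/
theorem NR_ins (P : SgPres A ι) (s : ℕ × (ι × Bool)) (L : List (ℕ × (ι × Bool)))
    (h : P.NR L) : P.NR (P.ins s L) := by
  induction L with
  | nil => simp [ins, NR]
  | cons t L ih =>
    by_cases h1 : s = bar t
    · rw [ins_bar _ _ _ _ h1]
      exact h.tail
    by_cases h2 : s.1 + P.tl s.2 ≤ t.1
    · rw [ins_le _ _ _ _ h2]
      have ih' := ih h.tail
      have hs := P.tl_pos s.2
      have hs' := P.bl_pos s.2
      have ht := P.tl_pos t.2
      have ht' := P.bl_pos t.2
      cases L with
      | nil =>
        rw [ins_nil]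
        refine List.isChain_cons_cons.2 ⟨⟨?_, ?_⟩, List.isChain_singleton _⟩
        · intro h3
          have := congrArg Prod.fst h3
          simp only [bar] at this
          omega
        · simp only
          omega
      | cons t' L' =>
        obtain ⟨⟨h3, h4⟩, h5⟩ := List.isChain_cons_cons.1 h
        by_cases h6 : s = bar t'
        · rw [ins_bar _ _ _ _ h6] at ih' ⊢
          cases L' with
          | nil => exact List.isChain_singleton _
          | cons t'' L'' =>
            obtain ⟨⟨h7, h8⟩, h9⟩ := List.isChain_cons_cons.1 h5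
            have e1 : t'.1 = s.1 := by rw [h6]; rfl
            have e2 : P.tl t'.2 = P.bl s.2 := by rw [h6, bl_bar]
            refine List.isChain_cons_cons.2 ⟨⟨?_, ?_⟩, h9⟩
            · intro h3
              have := congrArg Prod.fst h3
              simp only [bar] at this
              omega
            · simp only
              omega
        by_cases h7 : s.1 + P.tl s.2 ≤ t'.1
        · rw [ins_le _ _ _ _ h7] at ih' ⊢
          refine List.isChain_cons_cons.2 ⟨⟨?_, ?_⟩, ih'⟩
          · intro h8
            apply h3
            have e1 := congrArg Prod.fst h8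
            have e2 := congrArg Prod.snd h8
            simp only [bar] at e1 e2
            apply Prod.ext
            · simp only [bar]
              omega
            · simp only [bar]
              exact e2
          · simp only
            omega
        · rw [ins_default _ _ _ _ h6 h7] at ih' ⊢
          refine List.isChain_cons_cons.2 ⟨⟨?_, ?_⟩, ih'⟩
          · intro h3
            have := congrArg Prod.fst h3
            simp only [bar] at this
            omega
          · simp only
            omega
    · rw [ins_default _ _ _ _ h1 h2]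
      exact List.isChain_cons_cons.2 ⟨⟨h1, by omega⟩, h⟩

/-- (L2) -/
theorem ins_swap (P : SgPres A ι) (m n : ℕ) (c d : ι × Bool) (hmn : m + P.bl c ≤ n)
    (L : List (ℕ × (ι × Bool))) (h : P.NR L) :
    P.ins (n, d) (P.ins (m, c) L) = P.ins (m, c) (P.ins (n - P.bl c + P.tl c, d) L) := by
  have hc := P.tl_pos c
  have hc' := P.bl_pos c
  have hd := P.tl_pos d
  have hd' := P.bl_pos d
  induction L with
  | nil =>
    rw [ins_nil, ins_nil, ins_default' _ _ _ _ (by simp only; omega),
      ins_le _ _ _ _ (by simp only; omega), ins_nil]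
    congr 2
    simp only
    omega
  | cons t L ih =>
    have ht := P.tl_pos t.2
    have ht' := P.bl_pos t.2
    have hn : n - P.bl c + P.tl c - P.tl c + P.bl c = n := by omega
    by_cases h1 : (m, c) = bar t
    · have e1 : t.1 = m := by
        have := congrArg Prod.fst h1
        exact this.symm
      have e2 : P.tl t.2 = P.bl c := by
        have := P.bl_bar t
        rw [← h1] at this
        exact this.symm
      rw [ins_bar _ _ _ _ h1, ins_default' P (n - P.bl c + P.tl c, d) t L (by simp only; omega),
        ins_le _ _ _ _ (by simp only; omega), ins_bar _ _ _ _ h1]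
      simp only [hn]
      cases L with
      | nil => rfl
      | cons t' L' =>
        obtain ⟨⟨h3, h4⟩, h5⟩ := List.isChain_cons_cons.1 h
        exact ins_default' _ _ _ _ (by simp only; omega)
    by_cases h2 : m + P.tl c ≤ t.1
    · rw [ins_le P (m, c) t L h2]
      simp only
      by_cases h3 : (n, d) = bar (t.1 - P.tl c + P.bl c, t.2)
      · have h4 : (n - P.bl c + P.tl c, d) = bar t := by
          have e1 := congrArg Prod.fst h3
          have e2 := congrArg Prod.snd h3
          simp only [bar] at e1 e2
          apply Prod.ext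
          · simp only [bar]
            omega
          · simp only [bar]
            exact e2
        rw [ins_bar _ _ _ _ h3, ins_bar _ _ _ _ h4]
      by_cases h4 : n + P.tl d ≤ t.1 - P.tl c + P.bl c
      · rw [ins_le _ _ _ _ (by exact h4), ins_le P (n - P.bl c + P.tl c, d) t L
          (by simp only; omega), ins_le _ _ _ _ (by simp only; omega), ih h.tail]
        congr 2
        simp only
        omega
      · have h5 : (n - P.bl c + P.tl c, d) ≠ bar t := by
          intro h5
          apply h3
          have e1 := congrArg Prod.fst h5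
          have e2 := congrArg Prod.snd h5
          simp only [bar] at e1 e2
          apply Prod.ext
          · simp only [bar]
            omega
          · simp only [bar]
            exact e2
        rw [ins_default _ _ _ _ h3 (by exact h4), ins_default _ _ _ _ h5 (by simp only; omega),
          ins_le _ _ _ _ (by simp only; omega), ins_le P (m, c) t L h2]
        simp only [hn]
    · rw [ins_default _ _ _ _ h1 (by exact h2), ins_default' _ _ _ _ (by simp only; omega),
        ins_default' P (n - P.bl c + P.tl c, d) t L (by simp only; omega),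
        ins_le _ _ _ _ (by simp only; omega), ins_default _ _ _ _ h1 (by exact h2)]
      simp only [hn]

/-- one step of rewriting: an interchange in either direction, or the removal of a dipole -/
def Step (P : SgPres A ι) (p q : List (ℕ × (ι × Bool))) : Prop :=
  P.Swap p q ∨ P.Swap q p ∨ Dipole p q

omit [DecidableEq ι] in
theorem Step.append_right {P : SgPres A ι} {p q : List (ℕ × (ι × Bool))} (h : P.Step p q)
    (r : List (ℕ × (ι × Bool))) : P.Step (p ++ r) (q ++ r) := by
  rcases h with h | h | h
  · exact Or.inl (h.append_right r)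
  · exact Or.inr (Or.inl (h.append_right r))
  · exact Or.inr (Or.inr (h.append_right r))

omit [DecidableEq ι] in
theorem steps_append_right {P : SgPres A ι} {p q : List (ℕ × (ι × Bool))}
    (h : Relation.ReflTransGen P.Step p q)
    (r : List (ℕ × (ι × Bool))) : Relation.ReflTransGen P.Step (p ++ r) (q ++ r) := by
  induction h with
  | refl => exact .refl
  | tail _ h ih => exact ih.tail (h.append_right r)

/-- (L4) -/
theorem steps_ins (P : SgPres A ι) (s : ℕ × (ι × Bool)) (L : List (ℕ × (ι × Bool))) :
    Relation.ReflTransGen P.Step (L.reverse ++ [s]) (P.ins s L).reverse := by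
  induction L with
  | nil => exact .refl
  | cons t L ih =>
    by_cases h1 : s = bar t
    · rw [ins_bar _ _ _ _ h1]
      refine .single (Or.inr (Or.inr ?_))
      have := Dipole.mk L.reverse [] t.1 t.2
      rw [h1]
      simpa [bar] using this
    by_cases h2 : s.1 + P.tl s.2 ≤ t.1
    · rw [ins_le _ _ _ _ h2]
      have h3 := steps_append_right ih [(t.1 - P.tl s.2 + P.bl s.2, t.2)]
      rw [List.reverse_cons, List.reverse_cons]
      refine .trans (.single (Or.inr (Or.inl ?_))) h3
      have h4 := Swap.mk (P := P) L.reverse [] s.1 (t.1 - P.tl s.2 + P.bl s.2) s.2 t.2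
        (by simp only [bl]; omega)
      have h5 : t.1 - P.tl s.2 + P.bl s.2 - (P.bot s.2).length + (P.top s.2).length = t.1 := by
        simp only [bl, tl] at *
        omega
      rw [h5] at h4
      simpa using h4
    · rw [ins_default _ _ _ _ h1 h2]
      simp only [List.reverse_cons]
      exact .refl

/-- the reversed normal form of a list of cells -/
def nf (P : SgPres A ι) (p : List (ℕ × (ι × Bool))) : List (ℕ × (ι × Bool)) :=
  p.foldl (fun L s => P.ins s L) []

theorem NR_foldl (P : SgPres A ι) (p L : List (ℕ × (ι × Bool))) (h : P.NR L) :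
    P.NR (p.foldl (fun L s => P.ins s L) L) := by
  induction p generalizing L with
  | nil => exact h
  | cons s p ih => exact ih _ (P.NR_ins s L h)

theorem NR_nf (P : SgPres A ι) (p : List (ℕ × (ι × Bool))) : P.NR (P.nf p) :=
  P.NR_foldl p [] List.isChain_nil

theorem steps_nf (P : SgPres A ι) (p : List (ℕ × (ι × Bool))) :
    Relation.ReflTransGen P.Step p (P.nf p).reverse := by
  induction p using List.reverseRecOn with
  | nil => exact .refl
  | append_singleton p s ih =>
    have h1 := steps_append_right ih [s]
    have h2 := P.steps_ins s (P.nf p)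
    have h3 : P.nf (p ++ [s]) = P.ins s (P.nf p) := by simp [nf]
    rw [h3]
    exact h1.trans h2

theorem nf_swap {P : SgPres A ι} {p q : List (ℕ × (ι × Bool))} (h : P.Swap p q) :
    P.nf p = P.nf q := by
  cases h with
  | mk p q m n c d h =>
    simp only [nf, List.foldl_append, List.foldl_cons]
    congr 1
    exact P.ins_swap m n c d h _ (P.NR_nf p)

theorem nf_dipole {P : SgPres A ι} {p q : List (ℕ × (ι × Bool))} (h : Dipole p q) :
    P.nf p = P.nf q := by
  cases h with
  | mk p q m c =>
    simp only [nf, List.foldl_append, List.foldl_cons]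
    congr 1
    exact P.ins_bar_ins (m, c) _ (P.NR_nf p)

theorem nf_step {P : SgPres A ι} {p q : List (ℕ × (ι × Bool))} (h : P.Step p q) :
    P.nf p = P.nf q := by
  rcases h with h | h | h
  · exact nf_swap h
  · exact (nf_swap h).symm
  · exact nf_dipole h

omit [DecidableEq ι] in
theorem Swap.length_eq {P : SgPres A ι} {p q : List (ℕ × (ι × Bool))} (h : P.Swap p q) :
    p.length = q.length := by
  cases h with
  | mk p q m n c d h => simp

omit [DecidableEq ι] in
theorem Dipole.length_eq {p q : List (ℕ × (ι × Bool))} (h : Dipole p q) :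
    p.length = q.length + 2 := by
  cases h with
  | mk p q m c => simp; omega

omit [DecidableEq ι] in
theorem Isotopic.length_eq {P : SgPres A ι} {p q : List (ℕ × (ι × Bool))} (h : P.Isotopic p q) :
    p.length = q.length := by
  induction h with
  | rel _ _ h => exact h.length_eq
  | refl _ => rfl
  | symm _ _ _ ih => exact ih.symm
  | trans _ _ _ _ _ ih1 ih2 => exact ih1.trans ih2

theorem Isotopic.nf_eq {P : SgPres A ι} {p q : List (ℕ × (ι × Bool))} (h : P.Isotopic p q) :
    P.nf p = P.nf q := by
  induction h with
  | rel _ _ h => exact nf_swap h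
  | refl _ => rfl
  | symm _ _ _ ih => exact ih.symm
  | trans _ _ _ _ _ ih1 ih2 => exact ih1.trans ih2

omit [DecidableEq ι] in
theorem steps_length_le {P : SgPres A ι} {p q : List (ℕ × (ι × Bool))}
    (h : Relation.ReflTransGen P.Step p q) : q.length ≤ p.length := by
  induction h with
  | refl => exact le_rfl
  | tail _ h ih =>
    rcases h with h | h | h
    · rw [← h.length_eq]; exact ih
    · rw [h.length_eq]; exact ih
    · have := h.length_eq
      omega

theorem nf_length_le (P : SgPres A ι) (p : List (ℕ × (ι × Bool))) :
    (P.nf p).length ≤ p.length := by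
  have := steps_length_le (P.steps_nf p)
  simpa using this

omit [DecidableEq ι] in
theorem IsReduced.steps {P : SgPres A ι} {p q : List (ℕ × (ι × Bool))} (hp : P.IsReduced p)
    (h : Relation.ReflTransGen P.Step p q) : P.Isotopic p q := by
  induction h with
  | refl => exact Relation.EqvGen.refl _
  | tail _ h ih =>
    rcases h with h | h | h
    · exact Relation.EqvGen.trans _ _ _ ih (Relation.EqvGen.rel _ _ h)
    · exact Relation.EqvGen.trans _ _ _ ih (Relation.EqvGen.symm _ _ (Relation.EqvGen.rel _ _ h))
    · exact absurd h (hp _ _ ih)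

theorem IsReduced.length_eq {P : SgPres A ι} {p : List (ℕ × (ι × Bool))} (hp : P.IsReduced p) :
    p.length = (P.nf p).length := by
  have := (hp.steps (P.steps_nf p)).length_eq
  simpa using this

theorem isReduced_nf (P : SgPres A ι) (p : List (ℕ × (ι × Bool))) :
    P.IsReduced (P.nf p).reverse := by
  intro q r hq hr
  have h1 := hq.length_eq
  have h2 := hr.length_eq
  have h3 : P.nf r = P.nf p := by
    rw [← nf_dipole hr, ← hq.nf_eq]
    have : ∀ {p q : List (ℕ × (ι × Bool))}, Relation.ReflTransGen P.Step p q →
        P.nf p = P.nf q := by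
      intro p q h
      induction h with
      | refl => rfl
      | tail _ h ih => rw [ih, nf_step h]
    exact (this (P.steps_nf p)).symm
  have h4 := P.nf_length_le r
  rw [h3] at h4
  simp at h1
  omega

end SgPres

end Pool.Agent.Work.MP_5cc51b_al
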