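import Pool.Agent.Work.MP_5cc51b_al.NormalForm

/-!
# Classes of words and types of derivations
-/

set_option autoImplicit false

namespace Pool.Agent.Work.MP_5cc51b_al

namespace SgPres

variable {A ι : Type*}

theorem Der.append_word {P : SgPres A ι} {w w' : List A} {p : List (ℕ × (ι × Bool))}
    (h : P.Der w p w') (z : List A) : P.Der (w ++ z) p (w' ++ z) := by
  induction h with
  | nil w => exact .nil _
  | cons u v c p w' h ih =>
    have := Der.cons (P := P) u (v ++ z) c p (w' ++ z) (by simpa using ih)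
    simpa using this

/-- shift of all positions by `k` -/
def shift (k : ℕ) (p : List (ℕ × (ι × Bool))) : List (ℕ × (ι × Bool)) :=
  p.map (fun s => (k + s.1, s.2))

theorem Der.word_append {P : SgPres A ι} {w w' : List A} {p : List (ℕ × (ι × Bool))}
    (h : P.Der w p w') (z : List A) : P.Der (z ++ w) (shift z.length p) (z ++ w') := by
  induction h with
  | nil w => exact .nil _
  | cons u v c p w' h ih =>
    have := Der.cons (P := P) (z ++ u) v c (shift z.length p) (z ++ w') (by simpa using ih)
    simpa [shift] using this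

/-- derivability of words -/
def setoid (P : SgPres A ι) : Setoid (List A) where
  r u v := ∃ p, P.Der u p v
  iseqv := ⟨fun u => ⟨[], .nil u⟩, fun ⟨p, hp⟩ => ⟨mirror p, hp.mirror⟩,
    fun ⟨p, hp⟩ ⟨q, hq⟩ => ⟨p ++ q, hp.append hq⟩⟩

/-- classes of words (elements of the monoid presented by `P`) -/
def Cls (P : SgPres A ι) : Type _ := Quotient P.setoid

/-- the class of a word -/
def cls (P : SgPres A ι) (u : List A) : Cls P := Quotient.mk P.setoid u

theorem cls_eq {P : SgPres A ι} {u v : List A} : P.cls u = P.cls v ↔ ∃ p, P.Der u p v :=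
  Quotient.eq (r := P.setoid)

theorem cls_congr_left {P : SgPres A ι} {u v : List A} (h : P.cls u = P.cls v) (z : List A) :
    P.cls (u ++ z) = P.cls (v ++ z) := by
  obtain ⟨p, hp⟩ := cls_eq.1 h
  exact cls_eq.2 ⟨p, hp.append_word z⟩

theorem cls_congr_right {P : SgPres A ι} {u v : List A} (h : P.cls u = P.cls v) (z : List A) :
    P.cls (z ++ u) = P.cls (z ++ v) := by
  obtain ⟨p, hp⟩ := cls_eq.1 h
  exact cls_eq.2 ⟨_, hp.word_append z⟩

theorem cls_congr {P : SgPres A ι} {u v u' v' : List A} (h : P.cls u = P.cls v)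
    (h' : P.cls u' = P.cls v') : P.cls (u ++ u') = P.cls (v ++ v') :=
  (cls_congr_left h u').trans (cls_congr_right h' v)

theorem cls_top_bot (P : SgPres A ι) (c : ι × Bool) : P.cls (P.top c) = P.cls (P.bot c) := by
  refine cls_eq.2 ⟨[(0, c)], ?_⟩
  have := Der.cons (P := P) [] [] c [] _ (.nil _)
  simpa using this

/-- all letters of `y`, in the context `pre`, `post`, have types in `T` -/
def LT (P : SgPres A ι) (T : Set (Cls P × A × Cls P)) (pre y post : List A) : Prop :=
  ∀ a x b, y = a ++ x :: b → (P.cls (pre ++ a), x, P.cls (b ++ post)) ∈ T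

theorem LT_append {P : SgPres A ι} {T : Set (Cls P × A × Cls P)} {pre y z post : List A} :
    P.LT T pre (y ++ z) post ↔ P.LT T pre y (z ++ post) ∧ P.LT T (pre ++ y) z post := by
  constructor
  · intro h
    constructor
    · rintro a x b rfl
      have := h a x (b ++ z) (by simp)
      simpa using this
    · rintro a x b rfl
      have := h (y ++ a) x b (by simp)
      simpa using this
  · rintro ⟨h1, h2⟩ a x b h
    rcases List.append_eq_append_iff.1 h with ⟨c, hc1, hc2⟩ | ⟨c, hc1, hc2⟩
    · have := h2 c x b hc2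
      rw [hc1]
      simpa using this
    · cases c with
      | nil =>
        simp only [List.nil_append, List.append_nil] at hc1 hc2
        have := h2 [] x b hc2.symm
        rw [← hc1]
        simpa using this
      | cons x' c =>
        simp only [List.cons_append, List.cons.injEq] at hc2
        obtain ⟨rfl, rfl⟩ := hc2
        have := h1 a x c hc1
        simpa using this

theorem LT_congr {P : SgPres A ι} {T : Set (Cls P × A × Cls P)} {pre pre' y post post' : List A}
    (h : P.LT T pre y post) (h1 : P.cls pre = P.cls pre') (h2 : P.cls post = P.cls post') :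
    P.LT T pre' y post' := by
  rintro a x b rfl
  have := h a x b rfl
  rwa [cls_congr_left h1, cls_congr_right h2] at this

/-- derivations all of whose types are in `T`, `T'` -/
inductive TDer (P : SgPres A ι) (T : Set (Cls P × A × Cls P))
    (T' : Set (Cls P × (ι × Bool) × Cls P)) :
    List A → List (ℕ × (ι × Bool)) → List A → Prop
  | nil (w : List A) (hw : P.LT T [] w []) : TDer P T T' w [] w
  | cons (u v : List A) (c : ι × Bool) (p : List (ℕ × (ι × Bool))) (w' : List A)
      (h : TDer P T T' (u ++ P.bot c ++ v) p w') (hw : P.LT T [] (u ++ P.top c ++ v) [])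
      (hc : (P.cls u, c, P.cls v) ∈ T') : TDer P T T' (u ++ P.top c ++ v) ((u.length, c) :: p) w'

variable {P : SgPres A ι} {T : Set (Cls P × A × Cls P)} {T' : Set (Cls P × (ι × Bool) × Cls P)}

theorem TDer.der {w w' : List A} {p : List (ℕ × (ι × Bool))} (h : P.TDer T T' w p w') :
    P.Der w p w' := by
  induction h with
  | nil w hw => exact .nil w
  | cons u v c p w' h hw hc ih => exact .cons u v c p w' ih

theorem TDer.LT_left {w w' : List A} {p : List (ℕ × (ι × Bool))} (h : P.TDer T T' w p w') :
    P.LT T [] w [] := by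
  cases h with
  | nil w hw => exact hw
  | cons u v c p w' h hw hc => exact hw

theorem TDer.LT_right {w w' : List A} {p : List (ℕ × (ι × Bool))} (h : P.TDer T T' w p w') :
    P.LT T [] w' [] := by
  induction h with
  | nil w hw => exact hw
  | cons u v c p w' h hw hc ih => exact ih

theorem Der.tder {w w' : List A} {p : List (ℕ × (ι × Bool))} (h : P.Der w p w') :
    P.TDer Set.univ Set.univ w p w' := by
  induction h with
  | nil w => exact .nil w (fun _ _ _ _ => trivial)
  | cons u v c p w' h ih => exact .cons u v c p w' ih (fun _ _ _ _ => trivial) trivial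

theorem TDer.mono {w w' : List A} {p : List (ℕ × (ι × Bool))} (h : P.TDer T T' w p w')
    {T₁ : Set (Cls P × A × Cls P)} {T'₁ : Set (Cls P × (ι × Bool) × Cls P)} (hT : T ⊆ T₁)
    (hT' : T' ⊆ T'₁) : P.TDer T₁ T'₁ w p w' := by
  induction h with
  | nil w hw => exact .nil w (fun a x b e => hT (hw a x b e))
  | cons u v c p w' h hw hc ih =>
    exact .cons u v c p w' ih (fun a x b e => hT (hw a x b e)) (hT' hc)

theorem TDer.append {w w' w'' : List A} {p q : List (ℕ × (ι × Bool))}
    (hp : P.TDer T T' w p w') (hq : P.TDer T T' w' q w'') : P.TDer T T' w (p ++ q) w'' := by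
  induction hp with
  | nil w hw => exact hq
  | cons u v c p w' h hw hc ih => exact .cons u v c _ _ (ih hq) hw hc

theorem TDer.mirror {w w' : List A} {p : List (ℕ × (ι × Bool))}
    (hp : P.TDer T T' w p w') (hT' : ∀ s c t, (s, c, t) ∈ T' → (s, (c.1, !c.2), t) ∈ T') :
    P.TDer T T' w' (mirror p) w := by
  induction hp with
  | nil w hw => exact .nil w hw
  | cons u v c p w' h hw hc ih =>
    have h1 : P.TDer T T' (u ++ P.bot c ++ v) [(u.length, (c.1, !c.2))] (u ++ P.top c ++ v) := by
      have := TDer.cons (P := P) (T := T) (T' := T') u v (c.1, !c.2) [] (u ++ P.top c ++ v)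
        (by rw [bot_bar]; exact .nil _ hw) (by rw [top_bar]; exact h.LT_left) (hT' _ _ _ hc)
      rwa [top_bar] at this
    simpa [SgPres.mirror, bar] using ih.append h1

theorem TDer.of_append {w w'' : List A} {p q : List (ℕ × (ι × Bool))}
    (h : P.TDer T T' w (p ++ q) w'') :
    ∃ w', P.TDer T T' w p w' ∧ P.TDer T T' w' q w'' := by
  induction p generalizing w with
  | nil => exact ⟨w, .nil w h.LT_left, h⟩
  | cons s p ih =>
    cases h with
    | cons u v c _ _ h hw hc =>
      obtain ⟨w', h1, h2⟩ := ih h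
      exact ⟨w', .cons u v c p w' h1 hw hc, h2⟩

theorem TDer.cons_inv {w w'' : List A} {s : ℕ × (ι × Bool)} {p : List (ℕ × (ι × Bool))}
    (h : P.TDer T T' w (s :: p) w'') :
    ∃ u v, w = u ++ P.top s.2 ++ v ∧ u.length = s.1 ∧ P.TDer T T' (u ++ P.bot s.2 ++ v) p w'' ∧
      P.LT T [] w [] ∧ (P.cls u, s.2, P.cls v) ∈ T' := by
  cases h with
  | cons u v c _ _ h hw hc => exact ⟨u, v, rfl, rfl, h, hw, hc⟩

/-- the two intermediate words of an interchange have types in `T` if the outer ones have -/
theorem LT_swap {u z v : List A} {c d : ι × Bool}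
    (h0 : P.LT T [] (u ++ P.top c ++ z ++ P.top d ++ v) [])
    (h2 : P.LT T [] (u ++ P.bot c ++ z ++ P.bot d ++ v) []) :
    P.LT T [] (u ++ P.top c ++ z ++ P.bot d ++ v) [] ∧
    P.LT T [] (u ++ P.bot c ++ z ++ P.top d ++ v) [] := by
  have hc := P.cls_top_bot c
  have hd := P.cls_top_bot d
  simp only [List.append_assoc] at h0 h2 ⊢
  rw [LT_append, LT_append, LT_append, LT_append] at h0 h2 ⊢
  constructor
  · obtain ⟨a1, a2, a3, a4, a5⟩ := h0
    obtain ⟨b1, b2, b3, b4, b5⟩ := h2
    refine ⟨LT_congr a1 rfl ?_, LT_congr a2 rfl ?_, LT_congr a3 rfl ?_, LT_congr b4 ?_ rfl,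
      LT_congr b5 ?_ rfl⟩ <;>
    simp only [List.append_nil, List.nil_append, List.append_assoc]
    · exact cls_congr rfl (cls_congr rfl (cls_congr hd rfl))
    · exact cls_congr rfl (cls_congr hd rfl)
    · exact (cls_congr hd rfl)
    · exact cls_congr rfl (cls_congr hc.symm rfl)
    · exact cls_congr rfl (cls_congr hc.symm rfl)
  · rw [LT_append, LT_append, LT_append, LT_append]
    obtain ⟨a1, a2, a3, a4, a5⟩ := h0
    obtain ⟨b1, b2, b3, b4, b5⟩ := h2
    refine ⟨LT_congr b1 rfl ?_, LT_congr b2 rfl ?_, LT_congr b3 rfl ?_, LT_congr a4 ?_ rfl,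
      LT_congr a5 ?_ rfl⟩ <;>
    simp only [List.append_nil, List.nil_append, List.append_assoc]
    · exact cls_congr rfl (cls_congr rfl (cls_congr hd.symm rfl))
    · exact cls_congr rfl (cls_congr hd.symm rfl)
    · exact (cls_congr hd.symm rfl)
    · exact cls_congr rfl (cls_congr hc rfl)
    · exact cls_congr rfl (cls_congr hc rfl)

theorem TDer.swap_head {w w' : List A} {m n : ℕ} {c d : ι × Bool}
    {q : List (ℕ × (ι × Bool))} (hmn : m + (P.bot c).length ≤ n)
    (h : P.TDer T T' w ((m, c) :: (n, d) :: q) w') :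
    P.TDer T T' w ((n - (P.bot c).length + (P.top c).length, d) :: (m, c) :: q) w' := by
  obtain ⟨u, v, rfl, h1, h2, h3, h4⟩ := h.cons_inv
  obtain ⟨u', v', h5, h6, h7, h8, h9⟩ := h2.cons_inv
  simp only at h1 h2 h3 h4 h5 h6 h7 h8 h9
  have hc := P.cls_top_bot c
  have hd := P.cls_top_bot d
  have key : ∃ z, u' = u ++ P.bot c ++ z ∧ v = z ++ P.top d ++ v' := by
    rw [List.append_assoc u', List.append_eq_append_iff] at h5
    rcases h5 with ⟨z, hz1, hz2⟩ | ⟨z, hz1, hz2⟩
    · exact ⟨z, hz1, by simpa using hz2⟩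
    · have hl := congrArg List.length hz1
      simp only [List.length_append] at hl
      have hz : z = [] := List.length_eq_zero_iff.1 (by omega)
      subst hz
      refine ⟨[], by simpa using hz1.symm, by simpa using hz2.symm⟩
  obtain ⟨z, rfl, rfl⟩ := key
  have h10 := h7.LT_left
  have e1 : u ++ P.top c ++ (z ++ P.top d ++ v') = (u ++ P.top c ++ z) ++ P.top d ++ v' := by simp
  have e2 : (u ++ P.top c ++ z) ++ P.bot d ++ v' = u ++ P.top c ++ (z ++ P.bot d ++ v') := by simp
  have e3 : u ++ P.bot c ++ z ++ P.bot d ++ v' = u ++ P.bot c ++ (z ++ P.bot d ++ v') := by simp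
  have h11 := LT_swap (by rw [e1] at h3; exact h3) h10
  have s2 : P.TDer T T' ((u ++ P.top c ++ z) ++ P.bot d ++ v') ((m, c) :: q) w' := by
    rw [e2, ← h1]
    refine .cons u _ c q w' (by rw [← e3]; exact h7) (by rw [← e2]; exact h11.1) ?_
    have : P.cls (z ++ P.bot d ++ v') = P.cls (z ++ P.top d ++ v') :=
      cls_congr (cls_congr rfl hd.symm) rfl
    rw [this]
    exact h4
  have s1 : P.TDer T T' ((u ++ P.top c ++ z) ++ P.top d ++ v')
      (((u ++ P.top c ++ z).length, d) :: (m, c) :: q) w' := by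
    refine .cons _ _ d _ w' s2 (by rw [← e1]; exact h3) ?_
    have : P.cls (u ++ P.top c ++ z) = P.cls (u ++ P.bot c ++ z) :=
      cls_congr (cls_congr rfl hc) rfl
    rw [this]
    exact h9
  rw [e1]
  have e4 : (u ++ P.top c ++ z).length = n - (P.bot c).length + (P.top c).length := by
    simp only [List.length_append] at h6 ⊢
    omega
  rw [← e4]
  exact s1

theorem TDer.swap_head' {w w' : List A} {m n : ℕ} {c d : ι × Bool}
    {q : List (ℕ × (ι × Bool))} (hmn : m + (P.bot c).length ≤ n)
    (h : P.TDer T T' w ((n - (P.bot c).length + (P.top c).length, d) :: (m, c) :: q) w') :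
    P.TDer T T' w ((m, c) :: (n, d) :: q) w' := by
  obtain ⟨u', v', rfl, h1, h2, h3, h4⟩ := h.cons_inv
  obtain ⟨u, v, h5, h6, h7, h8, h9⟩ := h2.cons_inv
  simp only at h1 h2 h3 h4 h5 h6 h7 h8 h9
  have hc := P.cls_top_bot c
  have hd := P.cls_top_bot d
  have key : ∃ z, u' = u ++ P.top c ++ z ∧ v = z ++ P.bot d ++ v' := by
    rw [List.append_assoc u', List.append_eq_append_iff] at h5
    rcases h5 with ⟨z, hz1, hz2⟩ | ⟨z, hz1, hz2⟩
    · have hl := congrArg List.length hz1
      simp only [List.length_append] at hl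
      have hz : z = [] := List.length_eq_zero_iff.1 (by omega)
      subst hz
      refine ⟨[], by simpa using hz1.symm, by simpa using hz2.symm⟩
    · exact ⟨z, hz1, by simpa using hz2⟩
  obtain ⟨z, rfl, rfl⟩ := key
  have h10 := h7.LT_left
  have e1 : u ++ P.top c ++ z ++ P.top d ++ v' = u ++ P.top c ++ (z ++ P.top d ++ v') := by simp
  have e2 : u ++ P.bot c ++ (z ++ P.top d ++ v') = (u ++ P.bot c ++ z) ++ P.top d ++ v' := by simp
  have e3 : u ++ P.bot c ++ (z ++ P.bot d ++ v') = (u ++ P.bot c ++ z) ++ P.bot d ++ v' := by simp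
  have h11 := LT_swap h3 (by rw [e3] at h10; exact h10)
  have s2 : P.TDer T T' (u ++ P.bot c ++ (z ++ P.top d ++ v')) ((n, d) :: q) w' := by
    have e4 : n = (u ++ P.bot c ++ z).length := by
      simp only [List.length_append] at h1 ⊢
      omega
    rw [e2, e4]
    refine .cons _ _ d q w' (by rw [← e3]; exact h7) h11.2 ?_
    have : P.cls (u ++ P.bot c ++ z) = P.cls (u ++ P.top c ++ z) :=
      cls_congr (cls_congr rfl hc.symm) rfl
    rw [this]
    exact h4
  rw [e1, ← h6]
  refine .cons _ _ c _ w' s2 (by rw [← e1]; exact h3) ?_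
  have : P.cls (z ++ P.top d ++ v') = P.cls (z ++ P.bot d ++ v') :=
    cls_congr (cls_congr rfl hd) rfl
  rw [this]
  exact h9

theorem TDer.dipole_head {w w' : List A} {m : ℕ} {c : ι × Bool}
    {q : List (ℕ × (ι × Bool))}
    (h : P.TDer T T' w ((m, c) :: (m, (c.1, !c.2)) :: q) w') :
    P.TDer T T' w q w' := by
  obtain ⟨u, v, rfl, h1, h2, h3, h4⟩ := h.cons_inv
  obtain ⟨u', v', h5, h6, h7, h8, h9⟩ := h2.cons_inv
  simp only at h1 h2 h3 h4 h5 h6 h7 h8 h9
  rw [top_bar, List.append_assoc, List.append_assoc] at h5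
  obtain ⟨rfl, h10⟩ := List.append_inj h5 (by omega)
  obtain ⟨-, rfl⟩ := List.append_inj h10 rfl
  rwa [bot_bar] at h7

theorem TDer.step {w w' : List A} {p q : List (ℕ × (ι × Bool))} (h : P.TDer T T' w p w')
    (hs : P.Step p q) : P.TDer T T' w q w' := by
  rcases hs with hs | hs | hs
  · cases hs with
    | mk p q m n c d hmn =>
      obtain ⟨w₁, h1, h2⟩ := h.of_append
      exact h1.append (h2.swap_head hmn)
  · cases hs with
    | mk p q m n c d hmn =>
      obtain ⟨w₁, h1, h2⟩ := h.of_append
      exact h1.append (h2.swap_head' hmn)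
  · cases hs with
    | mk p q m c =>
      obtain ⟨w₁, h1, h2⟩ := h.of_append
      exact h1.append h2.dipole_head

theorem TDer.steps {w w' : List A} {p q : List (ℕ × (ι × Bool))} (h : P.TDer T T' w p w')
    (hs : Relation.ReflTransGen P.Step p q) : P.TDer T T' w q w' := by
  induction hs with
  | refl => exact h
  | tail _ hs ih => exact ih.step hs

theorem Der.step {w w' : List A} {p q : List (ℕ × (ι × Bool))} (h : P.Der w p w')
    (hs : P.Step p q) : P.Der w q w' := (h.tder.step hs).der

theorem Der.steps {w w' : List A} {p q : List (ℕ × (ι × Bool))} (h : P.Der w p w')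
    (hs : Relation.ReflTransGen P.Step p q) : P.Der w q w' := (h.tder.steps hs).der

/-- letter types of a word form a finite set -/
theorem exists_finite_LT (P : SgPres A ι) (w : List A) (f : List A → Cls P) :
    ({t : Cls P × A × Cls P | ∃ a x b, w = a ++ x :: b ∧ t = (f a, x, P.cls b)}).Finite := by
  induction w generalizing f with
  | nil =>
    convert Set.finite_empty
    ext t
    simp
  | cons y w ih =>
    refine ((ih (fun a => f (y :: a))).union (Set.finite_singleton (f [], y, P.cls w))).subset ?_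
    rintro t ⟨a, x, b, h, rfl⟩
    cases a with
    | nil =>
      simp only [List.nil_append, List.cons.injEq] at h
      obtain ⟨rfl, rfl⟩ := h
      exact Or.inr rfl
    | cons y' a =>
      simp only [List.cons_append, List.cons.injEq] at h
      obtain ⟨rfl, h⟩ := h
      exact Or.inl ⟨a, x, b, h, rfl⟩

theorem Der.exists_finite {w w' : List A} {p : List (ℕ × (ι × Bool))} (h : P.Der w p w') :
    ∃ (T : Set (Cls P × A × Cls P)) (T' : Set (Cls P × (ι × Bool) × Cls P)),
      T.Finite ∧ T'.Finite ∧ P.TDer T T' w p w' := by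
  induction h with
  | nil w =>
    refine ⟨_, ∅, P.exists_finite_LT w P.cls, Set.finite_empty, .nil w ?_⟩
    rintro a x b rfl
    exact ⟨a, x, b, rfl, by simp⟩
  | cons u v c p w' h ih =>
    obtain ⟨T, T', hT, hT', hd⟩ := ih
    refine ⟨T ∪ _, T' ∪ {(P.cls u, c, P.cls v)},
      hT.union (P.exists_finite_LT (u ++ P.top c ++ v) P.cls), hT'.union (Set.finite_singleton _),
      .cons u v c p w' (hd.mono Set.subset_union_left Set.subset_union_left) ?_ (Or.inr rfl)⟩
    intro a x b e
    exact Or.inr ⟨a, x, b, e, by simp⟩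

end SgPres

end Pool.Agent.Work.MP_5cc51b_al
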