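import Pool.Agent.Work.MP_5cc51b_al.Types

/-!
# A faithful permutation representation
-/

set_option autoImplicit false

namespace Pool.Agent.Work.MP_5cc51b_al

namespace SgPres

variable {A ι : Type*} [DecidableEq ι]

/-- the set of reversed normal forms -/
def NRL (P : SgPres A ι) : Type _ := {L : List (ℕ × (ι × Bool)) // P.NR L}

/-- action of a cell -/
def act (P : SgPres A ι) (s : ℕ × (ι × Bool)) : Equiv.Perm (NRL P) where
  toFun L := ⟨P.ins s L.1, P.NR_ins s L.1 L.2⟩
  invFun L := ⟨P.ins (bar s) L.1, P.NR_ins (bar s) L.1 L.2⟩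
  left_inv L := Subtype.ext (P.ins_bar_ins s L.1 L.2)
  right_inv L := Subtype.ext (by
    have := P.ins_bar_ins (bar s) L.1 L.2
    rwa [bar_bar] at this)

/-- value of a list of cells -/
def val (P : SgPres A ι) (p : List (ℕ × (ι × Bool))) : Equiv.Perm (NRL P) :=
  (p.map (fun s => (P.act s)⁻¹)).prod

@[simp] theorem val_nil (P : SgPres A ι) : P.val [] = 1 := rfl

theorem val_cons (P : SgPres A ι) (s : ℕ × (ι × Bool)) (p : List (ℕ × (ι × Bool))) :
    P.val (s :: p) = P.val [s] * P.val p := by
  simp [val]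

theorem val_append (P : SgPres A ι) (p q : List (ℕ × (ι × Bool))) :
    P.val (p ++ q) = P.val p * P.val q := by
  simp [val]

theorem act_bar (P : SgPres A ι) (s : ℕ × (ι × Bool)) : P.act (bar s) = (P.act s)⁻¹ := by
  ext L
  rfl

theorem val_mirror (P : SgPres A ι) (p : List (ℕ × (ι × Bool))) :
    P.val (mirror p) = (P.val p)⁻¹ := by
  induction p with
  | nil => simp [mirror]
  | cons s p ih =>
    have : mirror (s :: p) = mirror p ++ [bar s] := by simp [mirror]
    rw [this, val_append, ih, P.val_cons s p, mul_inv_rev]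
    congr 1
    simp [val, act_bar]

theorem val_pair (P : SgPres A ι) (m n : ℕ) (c d : ι × Bool) (h : m + P.bl c ≤ n) :
    P.val [(m, c), (n, d)] = P.val [(n - P.bl c + P.tl c, d), (m, c)] := by
  have : P.act (n, d) * P.act (m, c) = P.act (m, c) * P.act (n - P.bl c + P.tl c, d) := by
    ext L
    exact Subtype.ext (P.ins_swap m n c d h L.1 L.2)
  have h2 := congrArg (·⁻¹) this
  simp only [mul_inv_rev] at h2
  simpa [val] using h2

theorem val_swap {P : SgPres A ι} {p q : List (ℕ × (ι × Bool))} (h : P.Swap p q) :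
    P.val p = P.val q := by
  cases h with
  | mk p q m n c d h =>
    have e1 : p ++ (m, c) :: (n, d) :: q = p ++ ([(m, c), (n, d)] ++ q) := by simp
    have e2 : p ++ (n - (P.bot c).length + (P.top c).length, d) :: (m, c) :: q =
      p ++ ([(n - P.bl c + P.tl c, d), (m, c)] ++ q) := by simp [bl, tl]
    rw [e1, e2, val_append, val_append, val_append, val_append, P.val_pair m n c d h]

theorem val_dipole (P : SgPres A ι) {p q : List (ℕ × (ι × Bool))} (h : Dipole p q) :
    P.val p = P.val q := by
  cases h with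
  | mk p q m c =>
    have h1 : P.act (m, (c.1, !c.2)) = (P.act (m, c))⁻¹ := P.act_bar (m, c)
    simp [val, h1]

/-- the empty normal form -/
def emp (P : SgPres A ι) : NRL P := ⟨[], List.isChain_nil⟩

theorem val_nf (P : SgPres A ι) (p : List (ℕ × (ι × Bool))) :
    ((P.val p)⁻¹ P.emp).1 = P.nf p := by
  induction p using List.reverseRecOn with
  | nil => rfl
  | append_singleton p s ih =>
    rw [val_append, mul_inv_rev]
    have h3 : P.nf (p ++ [s]) = P.ins s (P.nf p) := by simp [nf]
    have h4 : (P.val [s])⁻¹ = P.act s := by simp [val]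
    rw [h3, ← ih, h4]
    rfl

theorem nf_eq_of_val_eq {P : SgPres A ι} {p q : List (ℕ × (ι × Bool))} (h : P.val p = P.val q) :
    P.nf p = P.nf q := by
  rw [← val_nf, ← val_nf, h]

omit [DecidableEq ι] in
theorem of_steps {P : SgPres A ι} {w : List A} {p q : List (ℕ × (ι × Bool))}
    (hs : Relation.ReflTransGen P.Step p q) (h : P.Der w p w) (h' : P.Der w q w) :
    DiagramGroup.of ⟨p, h⟩ = DiagramGroup.of ⟨q, h'⟩ := by
  induction hs with
  | refl => rfl
  | tail hs h1 ih =>
    have h2 := h.steps hs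
    rw [ih h2]
    rcases h1 with h1 | h1 | h1
    · exact Quot.sound (Or.inl h1)
    · exact (Quot.sound (Or.inl h1) : DiagramGroup.of ⟨_, h'⟩ = DiagramGroup.of ⟨_, h2⟩).symm
    · exact Quot.sound (Or.inr h1)

theorem Der.nf {P : SgPres A ι} {w w' : List A} {p : List (ℕ × (ι × Bool))}
    (h : P.Der w p w') : P.Der w (P.nf p).reverse w' := h.steps (P.steps_nf p)

theorem of_nf {P : SgPres A ι} {w : List A} {p : List (ℕ × (ι × Bool))}
    (h : P.Der w p w) : DiagramGroup.of ⟨p, h⟩ = DiagramGroup.of ⟨(P.nf p).reverse, h.nf⟩ :=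
  of_steps (P.steps_nf p) _ _

/-- the normal form of an element -/
def gnf {P : SgPres A ι} {w : List A} : DiagramGroup P w → List (ℕ × (ι × Bool)) :=
  Quot.lift (fun p => P.nf p.1) (by
    rintro p q (h | h)
    · exact nf_swap h
    · exact nf_dipole h)

theorem gnf_of {P : SgPres A ι} {w : List A}
    (p : {p : List (ℕ × (ι × Bool)) // P.Der w p w}) : gnf (DiagramGroup.of p) = P.nf p.1 := rfl

theorem isDiagramLength_gnf {P : SgPres A ι} {w : List A} (g : DiagramGroup P w) :
    P.IsDiagramLength g (gnf g).length := by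
  obtain ⟨⟨p, hp⟩, rfl⟩ := Quot.exists_rep g
  constructor
  · exact ⟨⟨(P.nf p).reverse, hp.nf⟩, P.isReduced_nf p, (of_nf hp).symm⟩
  · rintro ⟨q, hq⟩ h1 h2
    rw [h1.length_eq]
    show _ = (gnf (DiagramGroup.of ⟨p, hp⟩)).length
    have h3 : gnf (DiagramGroup.of ⟨q, hq⟩) = gnf (DiagramGroup.of ⟨p, hp⟩) := by
      rw [h2]
      rfl
    rw [← h3]
    rfl

/-- the faithful representation -/
def rep (P : SgPres A ι) (w : List A) : DiagramGroup P w →* Equiv.Perm (NRL P) where
  toFun := Quot.lift (fun p => P.val p.1) (by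
    rintro p q (h | h)
    · exact val_swap h
    · exact P.val_dipole h)
  map_one' := rfl
  map_mul' := by
    rintro ⟨p⟩ ⟨q⟩
    exact P.val_append p.1 q.1

theorem rep_of {P : SgPres A ι} {w : List A}
    (p : {p : List (ℕ × (ι × Bool)) // P.Der w p w}) : P.rep w (DiagramGroup.of p) = P.val p.1 :=
  rfl

theorem rep_injective (P : SgPres A ι) (w : List A) : Function.Injective (P.rep w) := by
  intro g h hgh
  obtain ⟨⟨p, hp⟩, rfl⟩ := Quot.exists_rep g
  obtain ⟨⟨q, hq⟩, rfl⟩ := Quot.exists_rep h
  have h1 : P.nf p = P.nf q := nf_eq_of_val_eq hgh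
  have h2 := of_nf hp
  have h3 := of_nf hq
  show DiagramGroup.of ⟨p, hp⟩ = DiagramGroup.of ⟨q, hq⟩
  rw [h2, h3]
  congr 2
  rw [h1]

omit [DecidableEq ι] in
theorem shift_append (k : ℕ) (p q : List (ℕ × (ι × Bool))) :
    shift k (p ++ q) = shift k p ++ shift k q := by
  simp [shift]

omit [DecidableEq ι] in
theorem shift_shift (k l : ℕ) (p : List (ℕ × (ι × Bool))) :
    shift k (shift l p) = shift (k + l) p := by
  simp [shift, Function.comp_def, add_assoc]

omit [DecidableEq ι] in
theorem shift_zero (p : List (ℕ × (ι × Bool))) :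
    shift 0 p = p := by
  simp [shift]

omit [DecidableEq ι] in
theorem shift_mirror (k : ℕ) (p : List (ℕ × (ι × Bool))) :
    shift k (mirror p) = mirror (shift k p) := by
  simp [shift, mirror, bar, Function.comp_def]

theorem val_shift_cell (P : SgPres A ι) (m k : ℕ) (c : ι × Bool) (z : List (ℕ × (ι × Bool))) :
    P.val (shift (m + P.tl c + k) z) * P.val [(m, c)] =
      P.val [(m, c)] * P.val (shift (m + P.bl c + k) z) := by
  induction z with
  | nil => simp [shift]
  | cons s z ih =>
    have e1 : ∀ j, shift j (s :: z) = (j + s.1, s.2) :: shift j z := fun j => rfl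
    have h := P.val_pair m (m + P.bl c + k + s.1) c s.2 (by omega)
    have e2 : m + P.bl c + k + s.1 - P.bl c + P.tl c = m + P.tl c + k + s.1 := by omega
    rw [e2, P.val_cons (m, c), P.val_cons (m + P.tl c + k + s.1, s.2)] at h
    rw [e1, e1, P.val_cons (_, s.2), P.val_cons (m + P.bl c + k + s.1, s.2), mul_assoc, ih,
      ← mul_assoc, ← h, mul_assoc]

theorem val_shift_der {P : SgPres A ι} {u u' : List A} {p : List (ℕ × (ι × Bool))}
    (h : P.Der u p u') (z : List (ℕ × (ι × Bool))) :
    P.val (shift u.length z) * P.val p = P.val p * P.val (shift u'.length z) := by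
  induction h with
  | nil w => simp
  | cons u v c p w' h ih =>
    have h1 := P.val_shift_cell u.length v.length c z
    have e1 : (u ++ P.top c ++ v).length = u.length + P.tl c + v.length := by
      simp [tl]; omega
    have e2 : (u ++ P.bot c ++ v).length = u.length + P.bl c + v.length := by
      simp [bl]; omega
    rw [e2] at ih
    rw [e1, P.val_cons, ← mul_assoc, h1, mul_assoc, ih, mul_assoc]

end SgPres

end Pool.Agent.Work.MP_5cc51b_al
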